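import Pool.Agent.P.MP_7badbe_co.Turan

set_option autoImplicit false

open Finset Filter Topology
open scoped BigOperators

namespace Pool.Agent.P.MP_7badbe_co

/-- hereditary covering property of the family `G` on the list `X` -/
def Good {V : Type} (R : ℕ) (G : List V → Prop) (X : List V) : Prop :=
  ∀ S : V → Bool, X.countP S ≤ R + 1 → ∃ e, e.Sublist X ∧ e.length + R = X.length ∧ G e ∧
    ((∀ x ∈ X, S x = true → x ∈ e) ∨ (∀ x ∈ X, S x = false → x ∈ e))

/-- random family with marginals at most `p` and failure probability at most `ε`, all lengths -/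
def AS (V : Type) (R w : ℕ) (p ε : ℝ) : Prop :=
  ∃ (Ω : Type) (_ : Fintype Ω) (_ : Nonempty Ω) (G : Ω → List V → Prop),
    (∀ e : List V, e.Nodup → w ≤ e.length → 𝔼 ω, ind (G ω e) ≤ p) ∧
    ∀ X : List V, X.Nodup → w + R ≤ X.length → 𝔼 ω, ind (¬ Good R (G ω) X) ≤ ε

/-- the same for one length -/
def AS1 (V : Type) (R w : ℕ) (p ε : ℝ) : Prop :=
  ∃ (Ω : Type) (_ : Fintype Ω) (_ : Nonempty Ω) (G : Ω → List V → Prop),
    (∀ e : List V, e.Nodup → e.length = w → 𝔼 ω, ind (G ω e) ≤ p) ∧
    ∀ X : List V, X.Nodup → X.length = w + R → 𝔼 ω, ind (¬ Good R (G ω) X) ≤ ε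

lemma AS.mono {V : Type} {R w w' : ℕ} {p p' ε ε' : ℝ} (h : AS V R w p ε) (hw : w ≤ w')
    (hp : p ≤ p') (he : ε ≤ ε') : AS V R w' p' ε' := by
  obtain ⟨Ω, _, _, G, h1, h2⟩ := h
  exact ⟨Ω, inferInstance, inferInstance, G, fun e hn hl => (h1 e hn (hw.trans hl)).trans hp,
    fun X hn hl => (h2 X hn (by omega)).trans he⟩

lemma countP_take_le {V : Type} (S : V → Bool) (X : List V) (n : ℕ) :
    (X.take n).countP S ≤ X.countP S := (List.take_sublist _ _).countP_le

lemma countP_drop_le {V : Type} (S : V → Bool) (X : List V) (n : ℕ) :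
    (X.drop n).countP S ≤ X.countP S := (List.drop_sublist _ _).countP_le

lemma good_take {V : Type} {R w : ℕ} {G G' : List V → Prop} {X : List V} (hl : w + R ≤ X.length)
    (h : Good R G (X.take (w + R))) (hG : ∀ e, G (e.take w) → G' e) : Good R G' X := by
  intro S hS
  have hY : (X.take (w + R)).length = w + R := by simp [hl]
  obtain ⟨e, he, hel, hg, hor⟩ := h S ((countP_take_le S X _).trans hS)
  have hew : e.length = w := by omega
  refine ⟨e ++ X.drop (w + R), ?_, ?_, hG _ (by rwa [List.take_left' hew]), ?_⟩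
  · conv_rhs => rw [← List.take_append_drop (w + R) X]
    exact he.append_right _
  · simp only [List.length_append, List.length_drop]; omega
  · have key : ∀ x ∈ X, (x ∈ X.take (w + R) → x ∈ e) → x ∈ e ++ X.drop (w + R) := by
      intro x hx h1
      rw [← List.take_append_drop (w + R) X, List.mem_append] at hx
      exact List.mem_append.2 (hx.imp h1 id)
    exact hor.imp (fun h x hx hs => key x hx (fun h1 => h x h1 hs))
      (fun h x hx hs => key x hx (fun h1 => h x h1 hs))

lemma good_drop {V : Type} {R n : ℕ} {G G' : List V → Prop} {X : List V} (hl : n ≤ X.length)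
    (h : Good R G (X.drop n)) (hG : ∀ e, G e → G' (X.take n ++ e)) : Good R G' X := by
  intro S hS
  obtain ⟨e, he, hel, hg, hor⟩ := h S ((countP_drop_le S X _).trans hS)
  refine ⟨X.take n ++ e, ?_, ?_, hG _ hg, ?_⟩
  · conv_rhs => rw [← List.take_append_drop n X]
    exact he.append_left _
  · simp only [List.length_append, List.length_drop, List.length_take] at hel ⊢; omega
  · have key : ∀ x ∈ X, (x ∈ X.drop n → x ∈ e) → x ∈ X.take n ++ e := by
      intro x hx h1
      rw [← List.take_append_drop n X, List.mem_append] at hx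
      exact List.mem_append.2 (hx.imp id h1)
    exact hor.imp (fun h x hx hs => key x hx (fun h1 => h x h1 hs))
      (fun h x hx hs => key x hx (fun h1 => h x h1 hs))

lemma AS1.lift {V : Type} {R w : ℕ} {p ε : ℝ} (h : AS1 V R w p ε) : AS V R w p ε := by
  obtain ⟨Ω, _, _, G, h1, h2⟩ := h
  refine ⟨Ω, inferInstance, inferInstance, fun ω e => G ω (e.take w), fun e hn hl => ?_,
    fun X hn hl => ?_⟩
  · exact h1 _ (hn.sublist (List.take_sublist _ _)) (by simp [hl])
  · refine le_trans (expect_le_expect (fun ω _ => ?_))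
      (h2 (X.take (w + R)) (hn.sublist (List.take_sublist _ _)) (by simp [hl]))
    exact ind_mono (fun hb hg => hb (good_take hl hg (fun e he => he)))

lemma ind_or_le (P Q : Prop) : ind (P ∨ Q) ≤ ind P + ind Q := by
  by_cases h : P
  · rw [ind_pos h]; exact (ind_le_one _).trans (le_add_of_nonneg_right (ind_nonneg _))
  · rw [ind_neg h, zero_add]; exact ind_mono (fun h' => h'.resolve_left h)

lemma expect_prod_mul {A B : Type} [Fintype A] [Fintype B] (f : A → ℝ) (g : B → ℝ) :
    𝔼 ω : A × B, f ω.1 * g ω.2 = (𝔼 a, f a) * 𝔼 b, g b := by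
  rw [← univ_product_univ, expect_product]
  simp only [← mul_expect, ← expect_mul]

lemma expect_prod_fst {A B : Type} [Fintype A] [Fintype B] [Nonempty B] (f : A → ℝ) :
    𝔼 ω : A × B, f ω.1 = 𝔼 a, f a := by
  rw [← univ_product_univ, expect_product]
  simp only [expect_const univ_nonempty]

/-- repair of the failures on the tail -/
lemma AS.repair {V : Type} {R K s : ℕ} {p ε q δ : ℝ} (h : AS V R K p ε) (h' : AS V R s q δ)
    (hε : 0 ≤ ε) : AS V R (K + R + s) (p + ε * q) (ε * δ) := by
  obtain ⟨Ω, _, _, G, h1, h2⟩ := h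
  obtain ⟨Ω', _, _, G', h3, h4⟩ := h'
  refine ⟨Ω × Ω', inferInstance, inferInstance, fun ω e => G ω.1 (e.take K) ∨
    (¬ Good R (G ω.1) (e.take (K + R)) ∧ G' ω.2 (e.drop (K + R))), fun e hn hl => ?_,
    fun X hn hl => ?_⟩
  · refine (expect_le_expect (fun ω _ => ind_or_le _ _)).trans ?_
    simp only [ind_and]
    rw [expect_add_distrib, expect_prod_fst (fun a => ind (G a (e.take K))),
      expect_prod_mul (fun a => ind (¬ Good R (G a) (e.take (K + R))))
        (fun b => ind (G' b (e.drop (K + R))))]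
    refine add_le_add (h1 _ (hn.sublist (List.take_sublist _ _)) (by simp; omega)) ?_
    exact mul_le_mul (h2 _ (hn.sublist (List.take_sublist _ _)) (by simp; omega))
      (h3 _ (hn.sublist (List.drop_sublist _ _)) (by simp; omega)) (av_ind_nonneg _) hε
  · have hY : (X.take (K + R)).length = K + R := by simp; omega
    have h5 : ∀ ω : Ω × Ω', ind (¬ Good R (fun e => G ω.1 (e.take K) ∨
        (¬ Good R (G ω.1) (e.take (K + R)) ∧ G' ω.2 (e.drop (K + R)))) X)
        ≤ ind (¬ Good R (G ω.1) (X.take (K + R))) * ind (¬ Good R (G' ω.2) (X.drop (K + R))) := by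
      intro ω
      rw [← ind_and]
      refine ind_mono (fun hb => ?_)
      have h6 : ¬ Good R (G ω.1) (X.take (K + R)) := fun hg =>
        hb (good_take (by omega) hg (fun e he => Or.inl he))
      refine ⟨h6, fun hg => hb (good_drop (by omega) hg (fun e he => Or.inr ?_))⟩
      rw [List.take_left' hY, List.drop_left' hY]
      exact ⟨h6, he⟩
    refine (expect_le_expect (fun ω _ => h5 ω)).trans ?_
    rw [expect_prod_mul (fun a => ind (¬ Good R (G a) (X.take (K + R))))
      (fun b => ind (¬ Good R (G' b) (X.drop (K + R))))]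
    exact mul_le_mul (h2 _ (hn.sublist (List.take_sublist _ _)) (by omega))
      (h4 _ (hn.sublist (List.drop_sublist _ _)) (by simp; omega)) (av_ind_nonneg _) hε

lemma of_expect_ind_nonpos {Ω : Type} [Fintype Ω] {P : Ω → Prop} (h : 𝔼 ω, ind (¬ P ω) ≤ 0)
    (ω : Ω) : P ω := by
  by_contra hc
  have h1 : 0 < 𝔼 ω, ind (¬ P ω) :=
    expect_pos' (fun _ _ => ind_nonneg _) ⟨ω, mem_univ _, by rw [ind_pos hc]; exact one_pos⟩
  exact absurd h (not_le.2 h1)

/-- an exact system bounds the co-density -/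
theorem upper_AS {m R : ℕ} {p q : ℝ}
    (hp : Tendsto (fun n : ℕ => (exF (m + 1) (R + 1) n : ℝ) / n.choose (m + 1)) atTop (𝓝 p))
    (h : ∀ n, AS (Fin n) R (m + 1) q 0) : 1 - p ≤ q := by
  refine upper_transfer hp (fun n => ?_)
  obtain ⟨Ω, _, _, G, h1, h2⟩ := h n
  refine ⟨Ω, inferInstance, inferInstance, fun ω e => G ω (e.sort (· ≤ ·)),
    fun ω S T hd hS hT => ?_, fun e he => h1 _ (sort_nodup _ _) (by rw [length_sort, he])⟩
  set W := (S ∪ T).sort (· ≤ ·) with hW
  have hWl : W.length = R + 1 + m := by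
    rw [hW, length_sort, card_union_of_disjoint hd, hS, hT]
  have hWn : W.Nodup := sort_nodup _ _
  have hWs : W.Pairwise (· ≤ ·) := pairwise_sort _ _
  have hg := of_expect_ind_nonpos (h2 W hWn (by omega)) ω
  obtain ⟨e, he, hel, hG, hor⟩ := hg (fun x => decide (x ∈ S)) (by
    rw [List.countP_eq_length_filter, ← List.toFinset_card_of_nodup (hWn.filter _), ← hS]
    refine card_le_card (fun x hx => ?_)
    simpa using (List.mem_filter.1 (List.mem_toFinset.1 hx)).2)
  have h8 := hWn.sublist he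
  refine ⟨e.toFinset, fun x hx => ?_, ?_, ?_, ?_⟩
  · exact (mem_sort (· ≤ ·)).1 (he.subset (List.mem_toFinset.1 hx))
  · rw [List.toFinset_card_of_nodup h8]; omega
  · refine hor.imp (fun h x hx => ?_) (fun h x hx => ?_)
    · exact List.mem_toFinset.2 (h x ((mem_sort (· ≤ ·)).2 (mem_union_left _ hx)) (by simpa using hx))
    · exact List.mem_toFinset.2 (h x ((mem_sort (· ≤ ·)).2 (mem_union_right _ hx))
        (by simpa using disjoint_right.1 hd hx))
  · show G ω _
    rw [(List.toFinset_sort (· ≤ ·) h8).2 (hWs.sublist he)]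
    exact hG

lemma AS_of_RT {V : Type} {R r : ℕ} {q : ℝ} (h : RT V r R q) :
    AS V R ((R + 2) * (r + R)) ((R + 2) * q) 0 := by
  obtain ⟨Ω, _, _, G, h1, h2⟩ := h
  refine ⟨Ω, inferInstance, inferInstance, fun ω e => ∃ b ∈ range (R + 2),
    G ω ((e.drop (b * (r + R))).take r), fun e hn he => ?_, fun W hWn hWl => ?_⟩
  · have h3 : ∀ ω, ind (∃ b ∈ range (R + 2), G ω ((e.drop (b * (r + R))).take r))
        ≤ ∑ b ∈ range (R + 2), ind (G ω ((e.drop (b * (r + R))).take r)) :=
      fun ω => ind_le_mapsum _ (range (R + 2)).val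
    refine (expect_le_expect (fun ω _ => h3 ω)).trans ?_
    rw [expect_sum_comm]
    refine (sum_le_sum (fun b hb => h2 _ (hn.sublist
      ((List.take_sublist _ _).trans (List.drop_sublist _ _))) ?_)).trans (by simp)
    have := mem_range.1 hb
    rw [List.length_take, List.length_drop]
    exact min_eq_left (Nat.le_sub_of_add_le (by nlinarith))
  · refine expect_le univ_nonempty (fun ω _ => (ind_neg (not_not.2 ?_)).le)
    intro S hS
    obtain ⟨b, hb, W₁, B, W₂, h3, h4, h5, h6⟩ := exists_block S (r + R) (R + 1) W hS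
      (by nlinarith)
    obtain ⟨e, he, hel, hG⟩ := h1 ω B (hWn.sublist (h3 ▸
      (List.sublist_append_right W₁ B).trans (List.sublist_append_left _ _))) h5
    refine ⟨W₁ ++ e ++ W₂, h3 ▸ ((he.append_left W₁).append_right W₂), ?_,
      ⟨b, mem_range.2 (by omega), ?_⟩, Or.inl (fun x hx hs => ?_)⟩
    · rw [h3]; simp only [List.length_append]; omega
    · rw [List.append_assoc, List.drop_left' h4, List.take_left' hel]
      exact hG
    · rw [h3] at hx
      simp only [List.mem_append] at hx ⊢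
      rcases hx with (h9 | h9) | h9
      · exact Or.inl (Or.inl h9)
      · rw [h6 x h9] at hs; exact absurd hs (by simp)
      · exact Or.inr h9

/-- exact systems of the right order exist -/
theorem AS_bound (R : ℕ) : ∃ C : ℝ, 0 < C ∧ ∃ s₀ : ℕ, ∀ (V : Type) [Fintype V] [DecidableEq V],
    ∀ s ≥ s₀, AS V R s (C / (s : ℝ) ^ R) 0 := by
  obtain ⟨K, hK0, hK⟩ := RT_bound R
  refine ⟨(R + 2) * (K * (2 * (R + 2)) ^ R), by positivity, (R + 2) * (2 * R + 1),
    fun V _ _ s hs => ?_⟩
  set l := s / (R + 2) with hl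
  have h1 : 2 * R + 1 ≤ l := (Nat.le_div_iff_mul_le (by omega)).2 (by nlinarith)
  obtain ⟨r, hr⟩ : ∃ r, l = r + R := ⟨l - R, by omega⟩
  refine (AS_of_RT (hK V r)).mono (by rw [← hr]; exact Nat.mul_div_le _ _) ?_ le_rfl
  have hs0 : (0 : ℝ) < s := by
    have : 0 < s := lt_of_lt_of_le (by positivity) hs
    exact_mod_cast this
  rw [mul_div_assoc]
  refine mul_le_mul_of_nonneg_left ?_ (by positivity)
  rw [div_le_div_iff₀ (by positivity) (by positivity), mul_assoc, ← mul_pow]
  have h2 : s < (R + 2) * (l + 1) := Nat.lt_mul_div_succ _ (by omega)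
  have h3 : (s : ℝ) ≤ 2 * (R + 2) * (r + 1) := by
    exact_mod_cast (show s ≤ 2 * (R + 2) * (r + 1) by nlinarith [show l ≤ 2 * r by omega])
  gcongr

end Pool.Agent.P.MP_7badbe_co
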