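import Pool.Agent.P.MP_7badbe_co.Lim.A

set_option autoImplicit false

open Finset Filter Topology
open scoped BigOperators

namespace Pool.Agent.P.MP_7badbe_co

lemma av_eq {A : Type} [Fintype A] (t₀ : A) : 𝔼 t : A, ind (t = t₀) = 1 / Fintype.card A := by
  rw [Fintype.expect_eq_sum_div_card, sum_eq_single t₀ (fun b _ hb => ind_neg hb) (by simp),
    ind_pos rfl]

lemma expect_agree {V A : Type} [Fintype V] [DecidableEq V] [Fintype A] [Nonempty A]
    (s : Finset V) (μ : V → A) :
    𝔼 χ : V → A, ind (∀ x ∈ s, χ x = μ x) = (1 / (Fintype.card A : ℝ)) ^ s.card := by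
  induction s using Finset.induction_on with
  | empty => simp [ind, expect_const univ_nonempty]
  | insert a s ha ih =>
    rw [expect_update a, card_insert_of_notMem ha, pow_succ', ← ih, ← av_eq (μ a), expect_mul]
    refine expect_congr rfl (fun v _ => ?_)
    rw [mul_expect]
    refine expect_congr rfl (fun χ _ => ?_)
    rw [← ind_and]
    refine ind_congr ?_
    rw [forall_mem_insert, Function.update_self]
    refine and_congr Iff.rfl (forall₂_congr (fun x hx => ?_))
    rw [Function.update_of_ne (by rintro rfl; exact ha hx)]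

variable {V F : Type} [Fintype V] [DecidableEq V] [Field F] [Fintype F]

lemma card_sub_one_pos : (0 : ℝ) < Fintype.card F - 1 := by
  have : (1 : ℝ) < Fintype.card F := by exact_mod_cast Fintype.one_lt_card
  linarith

/-- union bound over projective points -/
lemma ind_exists_le (s : Finset V) (P : (V → F) → Prop)
    (h1 : ∀ (l l' : V → F) (u : F), u ≠ 0 → (∀ x ∈ s, l' x = u * l x) → P l → P l')
    (h2 : ∀ l, P l → ∃ x ∈ s, l x ≠ 0) :
    ind (∃ l, P l) ≤ (Fintype.card F : ℝ) ^ s.card / (Fintype.card F - 1) * 𝔼 l, ind (P l) := by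
  classical
  have hq := card_sub_one_pos (F := F)
  have hq0 : (0 : ℝ) < Fintype.card F := by linarith
  by_cases h : ∃ l, P l
  · obtain ⟨l₀, hl₀⟩ := h
    obtain ⟨x₀, hx₀, hne⟩ := h2 l₀ hl₀
    have h3 : ∀ l : V → F, ∑ u ∈ univ.erase (0 : F), ind (∀ x ∈ s, l x = u * l₀ x)
        ≤ ind (P l) := by
      intro l
      by_cases h4 : ∃ u ∈ univ.erase (0 : F), ∀ x ∈ s, l x = u * l₀ x
      · obtain ⟨u, hu, h5⟩ := h4
        rw [sum_eq_single_of_mem u hu (fun u' _ hne' => ind_neg (fun h6 => hne'
          (mul_right_cancel₀ hne ((h6 x₀ hx₀).symm.trans (h5 x₀ hx₀))))), ind_pos h5,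
          ind_pos (h1 l₀ l u (mem_erase.1 hu).1 h5 hl₀)]
      · rw [sum_eq_zero (fun u hu => ind_neg (fun h6 => h4 ⟨u, hu, h6⟩))]
        exact ind_nonneg _
    have h4 := expect_le_expect (s := univ) (fun l _ => h3 l)
    rw [expect_sum_comm] at h4
    simp only [expect_agree s (fun x => _ * l₀ x), sum_const, card_erase_of_mem (mem_univ _),
      card_univ, nsmul_eq_mul] at h4
    rw [Nat.cast_sub Fintype.card_pos, Nat.cast_one] at h4
    refine (ind_le_one _).trans (le_trans (le_of_eq ?_)
      (mul_le_mul_of_nonneg_left h4 (by positivity)))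
    rw [one_div, inv_pow]
    field_simp
  · rw [ind_neg h]
    exact mul_nonneg (by positivity) (av_ind_nonneg _)

lemma expect_kernel (m : ℕ) (s : Finset V) (l : V → F) {x₀ : V} (hx : x₀ ∈ s) (hl : l x₀ ≠ 0) :
    𝔼 v : V → (Fin m → F), ind (∑ x ∈ s, l x • v x = 0) = (1 / (Fintype.card F : ℝ)) ^ m := by
  rw [expect_update x₀, expect_comm]
  have h1 : ∀ χ : V → (Fin m → F), 𝔼 t : Fin m → F,
      ind (∑ x ∈ s, l x • Function.update χ x₀ t x = 0) = (1 / (Fintype.card F : ℝ)) ^ m := by
    intro χ
    have h2 := av_eq (A := Fin m → F) (-(l x₀)⁻¹ • ∑ x ∈ s.erase x₀, l x • χ x)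
    rw [Fintype.card_fun, Fintype.card_fin, Nat.cast_pow, ← one_div_pow] at h2
    rw [← h2]
    refine expect_congr rfl (fun t _ => ind_congr ?_)
    rw [← add_sum_erase s _ hx, Function.update_self, sum_congr rfl (fun x hx' => by
      rw [Function.update_of_ne (ne_of_mem_erase hx')]), add_eq_zero_iff_eq_neg, neg_smul,
      ← smul_neg, eq_inv_smul_iff₀ hl]
  simp only [h1, expect_const univ_nonempty]

omit [Fintype V] [DecidableEq V] [Fintype F] in
lemma exists_kernel (m : ℕ) (s : Finset V) (hs : m < s.card) (v : V → (Fin m → F)) :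
    ∃ l : V → F, ∑ x ∈ s, l x • v x = 0 ∧ ∃ x ∈ s, l x ≠ 0 := by
  refine not_linearIndepOn_finset_iff.1 (fun h => ?_)
  have := LinearIndependent.fintype_card_le_finrank h
  simp at this
  omega

lemma Ex_prod {A : Type} [Fintype A] (m : ℕ) (f : A → ℝ) :
    Ex m (fun M => (M.map f).prod) = (𝔼 v, f v) ^ m := by
  induction m with
  | zero => simp
  | succ m ih =>
    simp only [Ex_succ, Multiset.map_cons, Multiset.prod_cons, Ex_mul, ih]
    rw [← expect_mul, pow_succ']

open Classical in
lemma tail_bound (s : Finset V) (t : ℕ) {η : ℝ} (hη : 0 < η)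
    (h : (1 + η) ^ 2 * Fintype.card F * t ≤ s.card) :
    𝔼 l : V → F, ind ((s.filter (fun x => l x = 0)).card < t) ≤ Real.exp (-(η ^ 2 * t)) := by
  have hq := card_sub_one_pos (F := F)
  have hq0 : (0 : ℝ) < Fintype.card F := by linarith
  set y : ℝ := 1 / (1 + η) with hy
  have hy0 : 0 < y := by positivity
  have hy1 : y ≤ 1 := by rw [hy, div_le_one (by positivity)]; linarith
  set f : F → ℝ := fun v => 1 - (1 - y) * ind (v = 0) with hf
  have h1 : ∀ l : V → F, ind ((s.filter (fun x => l x = 0)).card < t)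
      ≤ (1 + η) ^ t * ((s.val.map l).map f).prod := by
    intro l
    have h2 : ((s.val.map l).map f).prod = y ^ (s.filter (fun x => l x = 0)).card := by
      rw [Multiset.map_map, ← prod_const, prod_filter]
      refine prod_congr rfl (fun x _ => ?_)
      by_cases h3 : l x = 0 <;> simp [hf, ind, h3]
    rw [h2]
    by_cases h3 : (s.filter (fun x => l x = 0)).card < t
    · rw [ind_pos h3]
      have h4 : y ^ t ≤ y ^ (s.filter (fun x => l x = 0)).card :=
        pow_le_pow_of_le_one hy0.le hy1 h3.le
      refine le_trans (le_of_eq ?_) (mul_le_mul_of_nonneg_left h4 (by positivity))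
      rw [← mul_pow, hy, mul_one_div_cancel (by positivity), one_pow]
    · rw [ind_neg h3]; positivity
  refine (expect_le_expect (fun l _ => h1 l)).trans ?_
  rw [← mul_expect, expect_map s (fun M => (M.map f).prod), Ex_prod]
  have h2 : 𝔼 v, f v = 1 - (1 - y) / Fintype.card F := by
    simp only [hf, expect_sub_distrib, expect_const univ_nonempty, ← mul_expect, av_eq]
    ring
  have h3 : 0 ≤ 1 - (1 - y) / Fintype.card F := by
    rw [sub_nonneg, div_le_one hq0]; linarith
  rw [h2]
  have h4 : (1 + η) ^ t ≤ Real.exp (η * t) := by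
    rw [mul_comm, Real.exp_nat_mul]
    exact pow_le_pow_left₀ (by positivity) (by linarith [Real.add_one_le_exp η]) _
  have h5 : (1 - (1 - y) / Fintype.card F) ^ s.card
      ≤ Real.exp (s.card * -((1 - y) / Fintype.card F)) := by
    rw [Real.exp_nat_mul]
    exact pow_le_pow_left₀ h3 (Real.one_sub_le_exp_neg _) _
  refine (mul_le_mul h4 h5 (by positivity) (by positivity)).trans ?_
  rw [← Real.exp_add, Real.exp_le_exp]
  have h6 : (1 + η) * η * t ≤ s.card * ((1 - y) / Fintype.card F) := by
    have h7 : (1 - y) / Fintype.card F = η / ((1 + η) * Fintype.card F) := by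
      rw [hy]; field_simp; ring
    rw [h7, ← mul_div_assoc, le_div_iff₀ (by positivity)]
    nlinarith [mul_le_mul_of_nonneg_left h hη.le]
  nlinarith

omit [Fintype V] in
lemma filter_mem_of_sublist {e X : List V} (he : e.Sublist X) (hX : X.Nodup) :
    X.filter (fun x => decide (x ∈ e)) = e := by
  induction he with
  | slnil => rfl
  | cons a he ih =>
    have := List.nodup_cons.1 hX
    rw [List.filter_cons_of_neg (by simpa using fun h => this.1 (he.subset h)), ih this.2]
  | cons_cons a he ih =>
    have := List.nodup_cons.1 hX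
    rw [List.filter_cons_of_pos (by simp)]
    congr 1
    rw [← ih this.2]
    refine List.filter_congr (fun x hx => ?_)
    have : x ≠ a := by rintro rfl; exact this.1 hx
    simp [this, hx]

end Pool.Agent.P.MP_7badbe_co
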