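import Pool.Agent.P.MP_7badbe_co.Lim.B

set_option autoImplicit false

open Finset Filter Topology
open scoped BigOperators

namespace Pool.Agent.P.MP_7badbe_co

variable {V F : Type} [Fintype V] [DecidableEq V] [Field F] [Fintype F]

open Classical in
/-- the elements of the list on which `l` vanishes -/
noncomputable def zl (l : V → F) (e : List V) : List V := e.filter (fun x => decide (l x = 0))

omit [Fintype V] [DecidableEq V] [Fintype F] in
lemma zl_sublist (l : V → F) (e : List V) : (zl l e).Sublist e := List.filter_sublist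

omit [Fintype V] [DecidableEq V] [Fintype F] in
lemma mem_zl {l : V → F} {e : List V} {x : V} : x ∈ zl l e ↔ x ∈ e ∧ l x = 0 := by
  simp [zl]

omit [Fintype V] [Fintype F] in
lemma zl_scale {l l' : V → F} {u : F} (hu : u ≠ 0) {e : List V}
    (h : ∀ x ∈ e.toFinset, l' x = u * l x) : zl l' e = zl l e := by
  refine List.filter_congr (fun x hx => ?_)
  simp [h x (List.mem_toFinset.2 hx), hu]

omit [Fintype V] [DecidableEq V] [Fintype F] in
lemma ker_scale {m : ℕ} {l l' : V → F} {u : F} {s : Finset V} {v : V → (Fin m → F)}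
    (h : ∀ x ∈ s, l' x = u * l x) (h0 : ∑ x ∈ s, l x • v x = 0) : ∑ x ∈ s, l' x • v x = 0 := by
  rw [sum_congr rfl (fun x hx => by rw [h x hx, mul_smul]), ← smul_sum, h0, smul_zero]

/-- union bound for a property of the zero list of a dependency -/
lemma dep_bound {Ω : Type} [Fintype Ω] [Nonempty Ω] (m : ℕ) (e : List V) (he : e.Nodup)
    (Q : Ω → List V → Prop) {b : ℝ} (hb : 𝔼 l : V → F, 𝔼 ω, ind (Q ω (zl l e)) ≤ b) :
    𝔼 ω : (V → (Fin m → F)) × Ω, ind (∃ l : V → F, (∃ x ∈ e.toFinset, l x ≠ 0) ∧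
      ∑ x ∈ e.toFinset, l x • ω.1 x = 0 ∧ Q ω.2 (zl l e))
      ≤ (Fintype.card F : ℝ) ^ e.length / (Fintype.card F - 1) *
        ((1 / (Fintype.card F : ℝ)) ^ m * b) := by
  have hq := card_sub_one_pos (F := F)
  have hq0 : (0 : ℝ) < Fintype.card F := by linarith
  have h1 : ∀ ω : (V → (Fin m → F)) × Ω, ind (∃ l : V → F, (∃ x ∈ e.toFinset, l x ≠ 0) ∧
      ∑ x ∈ e.toFinset, l x • ω.1 x = 0 ∧ Q ω.2 (zl l e))
      ≤ (Fintype.card F : ℝ) ^ e.length / (Fintype.card F - 1) *
        𝔼 l : V → F, ind ((∃ x ∈ e.toFinset, l x ≠ 0) ∧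
          ∑ x ∈ e.toFinset, l x • ω.1 x = 0 ∧ Q ω.2 (zl l e)) := by
    intro ω
    rw [← List.toFinset_card_of_nodup he]
    refine ind_exists_le e.toFinset _ (fun l l' u hu h ⟨⟨x, hx, h2⟩, h3, h4⟩ => ?_)
      (fun l h => h.1)
    exact ⟨⟨x, hx, by rw [h x hx]; exact mul_ne_zero hu h2⟩, ker_scale h h3,
      by rwa [zl_scale hu h]⟩
  refine (expect_le_expect (fun ω _ => h1 ω)).trans ?_
  rw [← mul_expect, expect_comm]
  refine mul_le_mul_of_nonneg_left (le_trans ?_
    (mul_le_mul_of_nonneg_left hb (by positivity))) (by positivity)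
  rw [mul_expect]
  refine expect_le_expect (fun l _ => ?_)
  by_cases h2 : ∃ x ∈ e.toFinset, l x ≠ 0
  · obtain ⟨x, hx, h3⟩ := h2
    rw [← expect_kernel m e.toFinset l hx h3, ← expect_prod_mul]
    refine expect_le_expect (fun ω _ => ?_)
    rw [← ind_and]
    exact ind_mono (fun h => h.2)
  · refine (expect_le univ_nonempty (fun ω _ => (ind_neg (fun h => h2 h.1)).le)).trans ?_
    exact mul_nonneg (by positivity) (av_ind_nonneg _)

omit [Fintype V] [Fintype F] in
lemma good_zl {m R : ℕ} {G G' : List V → Prop} {X : List V} (hX : X.Nodup) {l : V → F}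
    {v : V → (Fin m → F)} (h1 : ∃ x ∈ X.toFinset, l x ≠ 0)
    (h2 : ∑ x ∈ X.toFinset, l x • v x = 0) (hg : Good R G (zl l X))
    (hG : ∀ e : List V, (∃ x ∈ e.toFinset, l x ≠ 0) → ∑ x ∈ e.toFinset, l x • v x = 0 →
      (zl l e).length + R = (zl l X).length → G (zl l e) → G' e) : Good R G' X := by
  classical
  intro S hS
  obtain ⟨e, he, hel, hg, hor⟩ := hg S ((zl_sublist l X).countP_le.trans hS)
  set e' := X.filter (fun x => decide (l x ≠ 0 ∨ x ∈ e)) with he'
  have hmem : ∀ x, x ∈ e' ↔ x ∈ X ∧ (l x ≠ 0 ∨ x ∈ e) := fun x => by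
    rw [he', List.mem_filter, decide_eq_true_eq]
  have h3 : zl l e' = e := by
    rw [← filter_mem_of_sublist he (hX.sublist (zl_sublist l X))]
    unfold zl
    rw [he', List.filter_filter, List.filter_filter]
    refine List.filter_congr (fun x _ => ?_)
    by_cases h : l x = 0 <;> simp [h]
  have h4 : e'.filter (fun x => !decide (l x = 0)) = X.filter (fun x => !decide (l x = 0)) := by
    rw [he', List.filter_filter]
    refine List.filter_congr (fun x _ => ?_)
    by_cases h : l x = 0 <;> simp [h]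
  have h5 : ∀ Y : List V, Y.length
      = (zl l Y).length + (Y.filter (fun x => !decide (l x = 0))).length := fun Y => by
    unfold zl
    convert (List.length_eq_length_filter_add (l := Y) (fun x => decide (l x = 0)))
  refine ⟨e', List.filter_sublist, ?_, hG e' ?_ ?_ (by rw [h3, hel]) (by rwa [h3]), ?_⟩
  · rw [h5 e', h5 X, h3, h4]; omega
  · obtain ⟨x, hx, h⟩ := h1
    exact ⟨x, List.mem_toFinset.2 ((hmem x).2 ⟨List.mem_toFinset.1 hx, Or.inl h⟩), h⟩
  · rw [← h2]
    refine sum_subset (fun x hx => List.mem_toFinset.2 ((hmem x).1 (List.mem_toFinset.1 hx)).1)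
      (fun x hx hx' => ?_)
    have : l x = 0 := by
      by_contra h
      exact hx' (List.mem_toFinset.2 ((hmem x).2 ⟨List.mem_toFinset.1 hx, Or.inl h⟩))
    rw [this, zero_smul]
  · have key : ∀ x ∈ X, (x ∈ zl l X → x ∈ e) → x ∈ e' := fun x hx h => (hmem x).2 ⟨hx, by
      by_cases h0 : l x = 0
      · exact Or.inr (h (mem_zl.2 ⟨hx, h0⟩))
      · exact Or.inl h0⟩
    exact hor.imp (fun h x hx hs => key x hx (fun h1 => h x h1 hs))
      (fun h x hx hs => key x hx (fun h1 => h x h1 hs))

/-- the algebraic reduction from level `K` to level about `K / q` -/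
theorem AS.reduce (F : Type) [Field F] [Fintype F] {R w K : ℕ} {p ε η : ℝ} (hR : 1 ≤ R)
    (h : AS V R w p ε) (hp : 0 ≤ p) (hε : 0 ≤ ε) (hη : 0 < η)
    (hK : (1 + η) ^ 2 * Fintype.card F * (w + R) ≤ K + R) :
    AS V R K (Fintype.card F / (Fintype.card F - 1) * (p / (Fintype.card F : ℝ) ^ R))
      (Fintype.card F / (Fintype.card F - 1) * (Real.exp (-(η ^ 2 * w)) + ε)) := by
  classical
  have hq := card_sub_one_pos (F := F)
  have hq0 : (0 : ℝ) < Fintype.card F := by linarith
  obtain ⟨Ω, _, _, G, h1, h2⟩ := h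
  obtain ⟨R, rfl⟩ : ∃ R', R = R' + 1 := ⟨R - 1, by omega⟩
  refine AS1.lift ⟨(V → (Fin (K + R) → F)) × Ω, inferInstance, inferInstance, fun ω e =>
    ∃ l : V → F, (∃ x ∈ e.toFinset, l x ≠ 0) ∧ ∑ x ∈ e.toFinset, l x • ω.1 x = 0 ∧
      (w ≤ (zl l e).length ∧ G ω.2 (zl l e)), fun e hn hl => ?_, fun X hn hl => ?_⟩
  · refine (dep_bound (F := F) (K + R) e hn (fun ω Y => w ≤ Y.length ∧ G ω Y) (b := p)
      (expect_le univ_nonempty (fun l _ => ?_))).trans (le_of_eq ?_)
    · by_cases h3 : w ≤ (zl l e).length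
      · exact (expect_le_expect (fun ω _ => ind_mono (fun h => h.2))).trans
          (h1 _ (hn.sublist (zl_sublist l e)) h3)
      · exact expect_le univ_nonempty (fun ω _ => (ind_neg (fun h => h3 h.1)).le.trans hp)
    · rw [hl, one_div, inv_pow]; field_simp; ring
  · refine le_trans (expect_le_expect (fun ω _ => ind_mono (fun hb => ?_)))
      ((dep_bound (F := F) (K + R) X hn
        (fun ω Y => Y.length < w + (R + 1) ∨ (w + (R + 1) ≤ Y.length ∧ ¬ Good (R + 1) (G ω) Y))
        (b := Real.exp (-(η ^ 2 * w)) + ε) ?_).trans (le_of_eq ?_))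
    · obtain ⟨l, h3, h4⟩ := exists_kernel (F := F) (K + R) X.toFinset
        (by rw [List.toFinset_card_of_nodup hn]; omega) ω.1
      refine ⟨l, h4, h3, ?_⟩
      by_contra hc
      push Not at hc
      exact hb (good_zl hn h4 h3 (hc.2 hc.1) (fun e h5 h6 h7 h8 => ⟨l, h5, h6, by omega, h8⟩))
    · have h3 : ∀ l : V → F, 𝔼 ω, ind ((zl l X).length < w + (R + 1) ∨
          (w + (R + 1) ≤ (zl l X).length ∧ ¬ Good (R + 1) (G ω) (zl l X)))
          ≤ ind ((X.toFinset.filter (fun x => l x = 0)).card < w + (R + 1)) + ε := by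
        intro l
        have h4 : (X.toFinset.filter (fun x => l x = 0)).card = (zl l X).length := by
          rw [← List.toFinset_card_of_nodup (hn.sublist (zl_sublist l X))]
          congr 1
          ext x
          simp [mem_zl]
        rw [h4]
        by_cases h5 : (zl l X).length < w + (R + 1)
        · rw [ind_pos h5]
          exact (av_ind_le_one _).trans (by linarith)
        · rw [ind_neg h5, zero_add]
          exact (expect_le_expect (fun ω _ => ind_mono (fun h => (h.resolve_left h5).2))).trans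
            (h2 _ (hn.sublist (zl_sublist l X)) (not_lt.1 h5))
      refine (expect_le_expect (fun l _ => h3 l)).trans ?_
      rw [expect_add_distrib, expect_const univ_nonempty]
      refine add_le_add_left ((tail_bound X.toFinset (w + (R + 1)) hη ?_).trans ?_) _
      · rw [List.toFinset_card_of_nodup hn, hl]; exact_mod_cast hK
      · rw [Real.exp_le_exp]; push_cast
        nlinarith [sq_nonneg η, Nat.cast_nonneg (α := ℝ) R]
    · rw [hl, one_div, inv_pow]; field_simp; ring

end Pool.Agent.P.MP_7badbe_co
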