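import Pool.Agent.P.MP_7badbe_co.Lim.A

set_option autoImplicit false

open Finset Filter Topology
open scoped BigOperators

namespace Pool.Agent.P.MP_7badbe_co

/-- the covering property on finite sets -/
def HitF {V : Type} [DecidableEq V] (i m : ℕ) (g : Finset V → Prop) : Prop :=
  ∀ S T : Finset V, Disjoint S T → S.card = i → T.card = m →
    ∃ e ⊆ S ∪ T, e.card = m + 1 ∧ (S ⊆ e ∨ T ⊆ e) ∧ g e

lemma hitF_of_hit {V A : Type} [DecidableEq V] {i m : ℕ} {γ : Multiset A → Prop}
    (hγ : Hit i m γ) (χ : V → A) : HitF i m (fun e => γ (e.val.map χ)) := by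
  intro S T hd hS hT
  rcases hγ (S.val.map χ) (T.val.map χ) (by simpa using hS) (by simpa using hT) with
    ⟨J, hJ, hc, hg⟩ | ⟨s, hs, hg⟩
  · obtain ⟨J', hJ', rfl⟩ := le_map_lift χ _ _ hJ
    set J'' : Finset V := ⟨J', Multiset.nodup_of_le hJ' T.nodup⟩ with hJ''
    have h1 : J'' ⊆ T := val_le_iff.1 hJ'
    have h2 : Disjoint S J'' := hd.mono_right h1
    refine ⟨S.disjUnion J'' h2, ?_, ?_, Or.inl ?_, ?_⟩
    · rw [disjUnion_eq_union]; exact union_subset_union_right h1
    · rw [card_disjUnion, hS]; simpa [hJ''] using hc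
    · rw [disjUnion_eq_union]; exact subset_union_left
    · rwa [← Multiset.map_add] at hg
  · obtain ⟨s, hs', rfl⟩ := Multiset.mem_map.1 hs
    have h1 : s ∉ T := disjoint_left.1 hd hs'
    refine ⟨insert s T, insert_subset (mem_union_left _ hs') subset_union_right,
      by rw [card_insert_of_notMem h1, hT], Or.inr (subset_insert _ _), ?_⟩
    show γ _
    rwa [insert_val_of_notMem h1, Multiset.map_cons]

open Classical in
lemma pad {V : Type} [DecidableEq V] {R m : ℕ} {g : Finset V → Prop} (hg : HitF (R + 1) m g)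
    {A : Finset V} (hA : A.card = m + 1 + R)
    (hc : R * ((powersetCard (m + 1) A).filter g).card ≤ m) {S : Finset V} (hS : S ⊆ A)
    (hSc : S.card ≤ R + 1) : ∃ e ⊆ A, e.card = m + 1 ∧ g e ∧ (S ⊆ e ∨ A \ S ⊆ e) := by
  set E := (powersetCard (m + 1) A).filter g with hE
  set B := E.biUnion (fun e => A \ e) with hB
  have h1 : B.card ≤ E.card * R := by
    refine card_biUnion_le_card_mul _ _ _ (fun e he => ?_)
    obtain ⟨h2, h3⟩ := mem_powersetCard.1 (mem_filter.1 he).1
    rw [card_sdiff_of_subset h2]; omega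
  have h2 : R + 1 ≤ (S ∪ A \ B).card := by
    have h3 := le_card_sdiff B A
    have h4 := card_le_card (subset_union_right (s₁ := S) (s₂ := A \ B))
    rw [mul_comm] at h1
    omega
  obtain ⟨S₁, h3, h4, h5⟩ := exists_subsuperset_card_eq (subset_union_left (s₂ := A \ B)) hSc h2
  have h6 : S₁ ⊆ A := h4.trans (union_subset hS sdiff_subset)
  obtain ⟨e, he, hec, hor, hge⟩ := hg S₁ (A \ S₁) disjoint_sdiff h5
    (by rw [card_sdiff_of_subset h6]; omega)
  rw [union_sdiff_of_subset h6] at he
  refine ⟨e, he, hec, hge, hor.imp h3.trans (fun h x hx => ?_)⟩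
  by_cases h7 : x ∈ S₁
  · have h8 := (mem_union.1 (h4 h7)).resolve_left (mem_sdiff.1 hx).2
    by_contra h9
    exact (mem_sdiff.1 h8).2 (mem_biUnion.2 ⟨e, mem_filter.2 ⟨mem_powersetCard.2 ⟨he, hec⟩, hge⟩,
      mem_sdiff.2 ⟨(mem_sdiff.1 hx).1, h9⟩⟩)
  · exact h (mem_sdiff.2 ⟨(mem_sdiff.1 hx).1, h7⟩)

lemma good_of_sets {V : Type} [DecidableEq V] {R k : ℕ} {g : Finset V → Prop} {X : List V}
    (hX : X.Nodup) (hl : X.length = k + R)
    (h : ∀ S ⊆ X.toFinset, S.card ≤ R + 1 →
      ∃ e ⊆ X.toFinset, e.card = k ∧ g e ∧ (S ⊆ e ∨ X.toFinset \ S ⊆ e)) :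
    Good R (fun e => g e.toFinset) X := by
  intro S hS
  obtain ⟨e, he, hec, hg, hor⟩ := h (X.filter S).toFinset
    (fun x hx => List.mem_toFinset.2 (List.mem_filter.1 (List.mem_toFinset.1 hx)).1)
    (by rwa [List.toFinset_card_of_nodup (hX.filter _), ← List.countP_eq_length_filter])
  have h3 : (X.filter (fun x => decide (x ∈ e))).toFinset = e := by
    ext x
    simp only [List.mem_toFinset, List.mem_filter, decide_eq_true_eq]
    exact ⟨fun h => h.2, fun h => ⟨List.mem_toFinset.1 (he h), h⟩⟩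
  refine ⟨X.filter (fun x => decide (x ∈ e)), List.filter_sublist, ?_,
    by show g _; rwa [h3], ?_⟩
  · rw [← List.toFinset_card_of_nodup (hX.filter _), h3, hec, hl]
  · refine hor.imp (fun h x hx hs => ?_) (fun h x hx hs => ?_)
    · exact List.mem_filter.2 ⟨hx, by simpa using h (by simp [hx, hs])⟩
    · exact List.mem_filter.2 ⟨hx, by simpa using h (by simp [hx, hs])⟩

open Classical in
lemma card_filter_ind {B : Type} (s : Finset B) (g : B → Prop) :
    ((s.filter g).card : ℝ) = ∑ e ∈ s, ind (g e) := by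
  rw [card_filter]; push_cast; rfl

open Classical in
lemma expect_count {V A : Type} [Fintype V] [DecidableEq V] [Fintype A] [Nonempty A] (k : ℕ)
    (γ : Multiset A → Prop) (B : Finset V) :
    𝔼 χ : V → A, (((powersetCard k B).filter (fun e => γ (e.val.map χ))).card : ℝ)
      = B.card.choose k * Ex k (fun M => ind (γ M)) := by
  simp only [card_filter_ind]
  rw [expect_sum_comm, sum_congr rfl (fun e he => by
    rw [expect_map e (fun M => ind (γ M)), (mem_powersetCard.1 he).2]), sum_const,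
    card_powersetCard, nsmul_eq_mul]

/-- a free hypergraph gives an approximate hereditary system -/
theorem AS_base {V A : Type} [Fintype V] [DecidableEq V] [Fintype A] [Nonempty A] {R m : ℕ}
    {γ : Multiset A → Prop} (hγ : Hit (R + 1) m γ) {p : ℝ}
    (hp : Ex (m + 1) (fun M => ind (γ M)) ≤ p) :
    AS V R (m + 1) p (R / (m + 1) * ((m + 1 + R).choose (m + 1) * p)) := by
  classical
  refine AS1.lift ⟨V → A, inferInstance, inferInstance, fun χ e => γ (e.toFinset.val.map χ),
    fun e hn hl => ?_, fun X hn hl => ?_⟩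
  · rw [expect_map e.toFinset (fun M => ind (γ M)), List.toFinset_card_of_nodup hn, hl]
    exact hp
  · have hA : X.toFinset.card = m + 1 + R := by rw [List.toFinset_card_of_nodup hn, hl]
    have h1 : ∀ χ : V → A, ind (¬ Good R (fun e => γ (e.toFinset.val.map χ)) X) ≤ R / (m + 1) *
        (((powersetCard (m + 1) X.toFinset).filter (fun e => γ (e.val.map χ))).card : ℝ) := by
      intro χ
      by_cases hc : R * ((powersetCard (m + 1) X.toFinset).filter
          (fun e => γ (e.val.map χ))).card ≤ m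
      · rw [ind_neg (not_not.2 (good_of_sets (g := fun e => γ (e.val.map χ)) hn hl
          (fun S hS hSc => pad (hitF_of_hit hγ χ) hA hc hS hSc)))]
        positivity
      · refine (ind_le_one _).trans ?_
        rw [div_mul_eq_mul_div, le_div_iff₀ (by positivity), one_mul]
        exact_mod_cast not_le.1 hc
    refine (expect_le_expect (fun χ _ => h1 χ)).trans ?_
    rw [← mul_expect, expect_count, hA]
    gcongr

lemma exists_transversal {V : Type} [DecidableEq V] {R : ℕ} (hR : 1 ≤ R) (Z : Finset (Finset V))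
    (hZ : ∀ z ∈ Z, z.card = R) :
    ∃ S : Finset V, S ⊆ Z.biUnion id ∧ S.card ≤ Z.card ∧ ∀ z ∈ Z, ∃ x ∈ S, x ∈ z := by
  induction Z using Finset.induction_on with
  | empty => exact ⟨∅, by simp⟩
  | insert z Z hz ih =>
    obtain ⟨S, h1, h2, h3⟩ := ih (fun y hy => hZ y (mem_insert_of_mem hy))
    obtain ⟨x, hx⟩ := card_pos.1 (show 0 < z.card by rw [hZ z (mem_insert_self _ _)]; omega)
    refine ⟨insert x S, ?_, ?_, ?_⟩
    · rw [biUnion_insert]
      exact insert_subset (mem_union_left _ hx) (h1.trans subset_union_right)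
    · rw [card_insert_of_notMem hz]; exact (card_insert_le _ _).trans (by omega)
    · rw [forall_mem_insert]
      exact ⟨⟨x, mem_insert_self _ _, hx⟩, fun y hy => by
        obtain ⟨u, hu, h⟩ := h3 y hy
        exact ⟨u, mem_insert_of_mem hu, h⟩⟩

lemma exists_colouring {V : Type} [DecidableEq V] {R : ℕ} (hR : 2 ≤ R) (Z : Finset (Finset V))
    (hZ : ∀ z ∈ Z, z.card = R) (hc : Z.card ≤ R) :
    ∃ S : Finset V, S ⊆ Z.biUnion id ∧ S.card ≤ R ∧ ∀ z ∈ Z, (∃ x ∈ S, x ∈ z) ∧ ¬ z ⊆ S := by
  rcases Z.eq_empty_or_nonempty with rfl | ⟨z₀, hz₀⟩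
  · exact ⟨∅, by simp⟩
  obtain ⟨S, h1, h2, h3⟩ := exists_transversal (by omega : 1 ≤ R) (Z.erase z₀)
    (fun z hz => hZ z (mem_of_mem_erase hz))
  rw [card_erase_of_mem hz₀] at h2
  have h4 : S ⊆ Z.biUnion id := h1.trans (biUnion_subset_biUnion_of_subset_left _ (erase_subset _ _))
  by_cases h5 : ∃ x ∈ S, x ∈ z₀
  · refine ⟨S, h4, by omega, fun z hz => ⟨?_, fun h => ?_⟩⟩
    · by_cases h6 : z = z₀
      · rwa [h6]
      · exact h3 z (mem_erase.2 ⟨h6, hz⟩)
    · have := card_le_card h
      rw [hZ z hz] at this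
      omega
  · push Not at h5
    have h6 : ∃ x ∈ z₀, insert x S ∉ Z.erase z₀ := by
      by_contra h
      push Not at h
      have := card_le_card_of_injOn (s := z₀) (t := Z.erase z₀) (fun x => insert x S)
        (fun x hx => h x hx) (fun x hx y _ hxy => by
          have h7 : x ∈ insert y S := by
            have : insert x S = insert y S := hxy
            rw [← this]; exact mem_insert_self _ _
          exact (mem_insert.1 h7).resolve_right (fun h8 => h5 x h8 hx))
      rw [card_erase_of_mem hz₀, hZ z₀ hz₀] at this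
      omega
    obtain ⟨x, hx, h7⟩ := h6
    have h8 : (insert x S).card ≤ R := (card_insert_le _ _).trans (by omega)
    refine ⟨insert x S, insert_subset (mem_biUnion.2 ⟨z₀, hz₀, hx⟩) h4, h8,
      fun z hz => ⟨?_, fun h => ?_⟩⟩
    · by_cases h6 : z = z₀
      · exact ⟨x, mem_insert_self _ _, h6 ▸ hx⟩
      · obtain ⟨u, hu, h⟩ := h3 z (mem_erase.2 ⟨h6, hz⟩)
        exact ⟨u, mem_insert_of_mem hu, h⟩
    · have h9 : z = insert x S := eq_of_subset_of_card_le h (by rw [hZ z hz]; exact h8)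
      by_cases h6 : z = z₀
      · have h10 : z₀ ⊆ {x} := fun y hy => by
          rcases mem_insert.1 (h (h6 ▸ hy)) with h11 | h11
          · exact mem_singleton.2 h11
          · exact absurd hy (h5 y h11)
        have := card_le_card h10
        rw [hZ z₀ hz₀, card_singleton] at this
        omega
      · exact h7 (h9 ▸ mem_erase.2 ⟨h6, hz⟩)

open Classical in
lemma count_ge {V : Type} [DecidableEq V] {R m : ℕ} (hR : 2 ≤ R) (hm : R * R ≤ m)
    {g : Finset V → Prop} (hg : HitF (R + 1) m g) {A : Finset V} (hA : A.card = m + 1 + R) :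
    R + 1 ≤ ((powersetCard (m + 1) A).filter g).card := by
  by_contra hc
  set E := (powersetCard (m + 1) A).filter g with hE
  have hc' : E.card ≤ R := by omega
  obtain ⟨S, h1, h2, h3⟩ := exists_colouring hR (E.image (fun e => A \ e)) (fun z hz => by
    obtain ⟨e, he, rfl⟩ := mem_image.1 hz
    obtain ⟨h2, h3⟩ := mem_powersetCard.1 (mem_filter.1 he).1
    rw [card_sdiff_of_subset h2]; omega) (card_image_le.trans hc')
  have hS : S ⊆ A := h1.trans (biUnion_subset.2 (fun z hz => by
    obtain ⟨e, _, rfl⟩ := mem_image.1 hz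
    exact sdiff_subset))
  obtain ⟨e, he, hec, hge, hor⟩ := pad hg hA ((Nat.mul_le_mul_left R hc').trans hm) hS
    (by omega)
  obtain ⟨⟨x, hx, hx'⟩, h4⟩ := h3 (A \ e) (mem_image_of_mem _
    (mem_filter.2 ⟨mem_powersetCard.2 ⟨he, hec⟩, hge⟩))
  rcases hor with h | h
  · exact (mem_sdiff.1 hx').2 (h hx)
  · refine h4 (fun y hy => ?_)
    by_contra h5
    exact (mem_sdiff.1 hy).2 (h (mem_sdiff.2 ⟨(mem_sdiff.1 hy).1, h5⟩))

theorem lower_count {R m : ℕ} (hR : 2 ≤ R) (hm : R * R ≤ m) {p : ℝ}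
    (hp : Tendsto (fun n : ℕ => (exF (m + 1) (R + 1) n : ℝ) / n.choose (m + 1)) atTop (𝓝 p)) :
    ((R : ℝ) + 1) / (m + 1 + R).choose (m + 1) ≤ 1 - p := by
  classical
  refine lower_transfer (by omega) (by nlinarith) hp (fun n g hg => ?_)
  have h0 : (0 : ℝ) < (m + 1 + R).choose (m + 1) := by
    exact_mod_cast Nat.choose_pos (by omega)
  have h1 := expect_count (V := Fin (m + 1 + R)) (m + 1) g univ
  rw [card_univ, Fintype.card_fin] at h1
  rw [div_le_iff₀ h0, mul_comm, ← h1]
  refine le_expect univ_nonempty (fun χ _ => ?_)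
  exact_mod_cast count_ge hR hm (hitF_of_hit hg χ) (by simp)

end Pool.Agent.P.MP_7badbe_co
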