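import Pool.Agent.P.MP_7badbe_co.Lim.D

set_option autoImplicit false

open Finset Filter Topology
open scoped BigOperators

namespace Pool.Agent.P.MP_7badbe_co

variable {V : Type} [Fintype V] [DecidableEq V]

/-- every small set together with `U` lies in an edge inside `A` -/
def LCov (A : Finset V) (k : ℕ) (g : Finset V → Prop) (t : ℕ) (U : Finset V) : Prop :=
  ∀ S ⊆ A, S.card < t → ∃ e ⊆ A, e.card = k ∧ g e ∧ S ∪ U ⊆ e

lemma miss_bound (M : ℕ) [NeZero M] {A U : Finset V} {k R B : ℕ} (hA : A.card = k + R)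
    (hU : U.card ≤ B) :
    𝔼 c : Finset V → Fin M, ind (∀ Z ∈ powersetCard R (A \ U), ¬ c (A \ Z) = 0)
      ≤ (1 - 1 / M : ℝ) ^ (k + R - B).choose R := by
  have h5 := expect_map (A := Fin M) ((powersetCard R (A \ U)).image (fun Z => A \ Z))
    (fun T => ind (∀ t ∈ T, ¬ t = 0))
  rw [Ex_all, card_image_of_injOn (fun Z hZ Z' hZ' h => by
    have h1 := (mem_powersetCard.1 hZ).1.trans sdiff_subset
    have h2 := (mem_powersetCard.1 hZ').1.trans sdiff_subset
    have h3 : A \ Z = A \ Z' := h
    rw [← Finset.sdiff_sdiff_eq_self h1, h3, Finset.sdiff_sdiff_eq_self h2]),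
    card_powersetCard] at h5
  simp only [Multiset.forall_mem_map_iff, mem_val, forall_mem_image, ind_not (_ = (0 : Fin M)),
    expect_sub_distrib, expect_const univ_nonempty, av_zero] at h5
  refine le_trans (le_of_eq ?_) (h5.le.trans ?_)
  · exact expect_congr rfl (fun c _ => ind_congr Iff.rfl)
  · have hM : (1 : ℝ) ≤ M := by exact_mod_cast NeZero.one_le
    have h6 : (0 : ℝ) ≤ 1 / M := by positivity
    refine pow_le_pow_of_le_one ?_ (by linarith) (Nat.choose_le_choose _ ?_)
    · rw [sub_nonneg, div_le_one (by linarith)]; exact hM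
    · have := le_card_sdiff U A
      omega

lemma cov_bound (M : ℕ) [NeZero M] {A : Finset V} {k R B : ℕ} (hA : A.card = k + R) {x : ℝ}
    (hx0 : 0 ≤ x) (hx1 : x ≤ 1) (hx : (1 - 1 / M : ℝ) ^ (k + R - B).choose R ≤ x) (J : ℕ) :
    ∀ (t : ℕ) (U : Finset V), U ⊆ A → U.card + t * R ≤ B →
      x ^ t * Ex J (fun N : Multiset (Finset V → Fin M) =>
        ind (¬ LCov A k (fun e => ∃ c ∈ N, c e = 0) t U)) ≤ 2 ^ J * x ^ (J + 1) := by
  have h0 : ∀ (J : ℕ) (U : Finset V), x ^ 0 * Ex J (fun N : Multiset (Finset V → Fin M) =>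
      ind (¬ LCov A k (fun e => ∃ c ∈ N, c e = 0) 0 U)) ≤ 2 ^ J * x ^ (J + 1) := by
    intro J U
    rw [pow_zero, one_mul]
    refine Ex_le (fun N _ => (ind_neg (not_not.2 (fun S _ h => absurd h (by omega)))).le.trans ?_)
    positivity
  induction J with
  | zero =>
    intro t U _ _
    cases t with
    | zero => exact h0 0 U
    | succ t =>
      have h1 : x ^ (t + 1) ≤ x := pow_le_of_le_one hx0 hx1 (by omega)
      have h2 := ind_le_one (¬ LCov A k (fun e => ∃ c ∈ (0 : Multiset (Finset V → Fin M)), c e = 0)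
        (t + 1) U)
      simp only [Ex_zero, pow_zero, one_mul, zero_add, pow_one]
      exact (mul_le_of_le_one_right (by positivity) h2).trans h1
  | succ J ih =>
    intro t U hU hB
    cases t with
    | zero => exact h0 _ U
    | succ t =>
      have h1 : ∀ c : Finset V → Fin M, x ^ (t + 1) * Ex J (fun N =>
          ind (¬ LCov A k (fun e => ∃ c' ∈ c ::ₘ N, c' e = 0) (t + 1) U))
          ≤ (x + ind (∀ Z ∈ powersetCard R (A \ U), ¬ c (A \ Z) = 0)) * (2 ^ J * x ^ (J + 1)) := by
        intro c
        by_cases h2 : ∀ Z ∈ powersetCard R (A \ U), ¬ c (A \ Z) = 0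
        · rw [ind_pos h2]
          refine le_trans (mul_le_mul_of_nonneg_left (Ex_mono (fun N _ => ?_)) (by positivity))
            ((ih (t + 1) U hU hB).trans (le_mul_of_one_le_left (by positivity)
              (le_add_of_nonneg_left hx0)))
          refine ind_mono (fun hb hg => hb (fun S hS hc => ?_))
          obtain ⟨e, h3, h4, ⟨c', h5, h6⟩, h7⟩ := hg S hS hc
          exact ⟨e, h3, h4, ⟨c', Multiset.mem_cons_of_mem h5, h6⟩, h7⟩
        · rw [ind_neg h2, add_zero, pow_succ', mul_assoc]
          push Not at h2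
          obtain ⟨Z, hZ, hc⟩ := h2
          obtain ⟨hZ1, hZ2⟩ := mem_powersetCard.1 hZ
          have hZA : Z ⊆ A := hZ1.trans sdiff_subset
          refine mul_le_mul_of_nonneg_left (le_trans (mul_le_mul_of_nonneg_left
            (Ex_mono (fun N _ => ?_)) (by positivity))
            (ih t (U ∪ Z) (union_subset hU hZA) ?_)) hx0
          · refine ind_mono (fun hb hg => hb (fun S hS hc' => ?_))
            by_cases h3 : Disjoint S Z
            · refine ⟨A \ Z, sdiff_subset, by rw [card_sdiff_of_subset hZA]; omega,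
                ⟨c, Multiset.mem_cons_self _ _, hc⟩, union_subset (subset_sdiff.2 ⟨hS, h3⟩)
                (subset_sdiff.2 ⟨hU, (subset_sdiff.1 hZ1).2.symm⟩)⟩
            · obtain ⟨z, hz1, hz2⟩ := not_disjoint_iff.1 h3
              obtain ⟨e, h4, h5, ⟨c', h6, h7⟩, h8⟩ := hg (S.erase z) ((erase_subset _ _).trans hS)
                (by rw [card_erase_of_mem hz1]; have := card_pos.2 ⟨z, hz1⟩; omega)
              refine ⟨e, h4, h5, ⟨c', Multiset.mem_cons_of_mem h6, h7⟩, fun y hy => h8 ?_⟩
              by_cases h9 : y = z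
              · exact mem_union_right _ (mem_union_right _ (h9 ▸ hz2))
              · rcases mem_union.1 hy with h10 | h10
                · exact mem_union_left _ (mem_erase.2 ⟨h9, h10⟩)
                · exact mem_union_right _ (mem_union_left _ h10)
          · have := card_union_le U Z
            rw [add_mul, one_mul] at hB
            omega
      rw [Ex_succ, mul_expect]
      refine (expect_le_expect (fun c _ => h1 c)).trans ?_
      rw [← expect_mul, expect_add_distrib, expect_const univ_nonempty]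
      have h2 := (miss_bound M hA (U := U) (B := B) (by omega)).trans hx
      calc _ ≤ (x + x) * (2 ^ J * x ^ (J + 1)) := by gcongr
        _ = _ := by ring

/-- independent hash functions give an approximate system -/
theorem AS_hash (V : Type) [Fintype V] [DecidableEq V] (M : ℕ) [NeZero M] (k R : ℕ) {x : ℝ}
    (hx0 : 0 < x) (hx1 : x ≤ 1)
    (hx : (1 - 1 / M : ℝ) ^ (k + R - (R + 2) * R).choose R ≤ x) :
    AS V R k ((2 * R + 3) / M) (2 ^ (2 * R + 3) * x ^ (R + 2)) := by
  refine AS1.lift ⟨Fin (2 * R + 3) → (Finset V → Fin M), inferInstance, inferInstance,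
    fun χ e => ∃ c ∈ univ.val.map χ, c e.toFinset = 0, fun e _ _ => ?_, fun X hn hl => ?_⟩
  · refine (expect_map (univ : Finset (Fin (2 * R + 3))) (fun N : Multiset (Finset V → Fin M) =>
      ind (∃ c ∈ N, c e.toFinset = 0))).le.trans ?_
    rw [card_univ, Fintype.card_fin]
    refine (Ex_mono (fun N _ => ind_le_mapsum _ N)).trans (le_of_eq ?_)
    rw [Ex_mapsum, expect_update e.toFinset]
    simp only [Function.update_self, expect_const univ_nonempty, av_zero]
    push_cast; ring
  · have hA : X.toFinset.card = k + R := by rw [List.toFinset_card_of_nodup hn, hl]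
    have h1 := cov_bound M hA hx0.le hx1 hx (2 * R + 3) (R + 2) ∅ (empty_subset _) (by simp)
    have h2 := expect_map (univ : Finset (Fin (2 * R + 3)))
      (fun N : Multiset (Finset V → Fin M) =>
        ind (¬ LCov X.toFinset k (fun e => ∃ c ∈ N, c e = 0) (R + 2) ∅))
    rw [card_univ, Fintype.card_fin] at h2
    rw [← h2, show 2 * R + 3 + 1 = (R + 2) + (R + 2) by ring, pow_add x (R + 2), mul_left_comm,
      mul_le_mul_iff_right₀ (by positivity)] at h1
    refine le_trans (expect_le_expect (fun χ _ => ?_)) h1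
    refine ind_mono (fun hb hg => hb ?_)
    refine good_of_sets (g := fun e => ∃ c ∈ univ.val.map χ, c e = 0) hn hl (fun S hS hc => ?_)
    obtain ⟨e, h3, h4, h5, h6⟩ := hg S hS (by omega)
    exact ⟨e, h3, h4, h5, Or.inl (subset_union_left.trans h6)⟩

end Pool.Agent.P.MP_7badbe_co
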