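import Pool.Agent.P.MP_7badbe_co.Lim.C
import Pool.Agent.P.MP_7badbe_co.Lim.D

set_option autoImplicit false

open Finset Filter Topology
open scoped BigOperators

namespace Pool.Agent.P.MP_7badbe_co

lemma small_step {δ : ℝ} (hδ : 0 < δ) :
    ∃ u v : ℤ, 0 < u * Real.log 2 + v * Real.log 3 ∧ u * Real.log 2 + v * Real.log 3 ≤ δ := by
  have h2 : 0 < Real.log 2 := Real.log_pos (by norm_num)
  have h3 : 0 < Real.log 3 := Real.log_pos (by norm_num)
  obtain ⟨n, hn⟩ := exists_nat_gt (Real.log 2 / δ)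
  obtain ⟨j, k, hk, _, h⟩ := Real.exists_int_int_abs_mul_sub_le (Real.log 3 / Real.log 2)
    (Nat.succ_pos n)
  have h4 : |k * Real.log 3 - j * Real.log 2| ≤ δ := by
    have h5 : k * Real.log 3 - j * Real.log 2 = (k * (Real.log 3 / Real.log 2) - j) * Real.log 2 := by
      field_simp
    rw [h5, abs_mul, abs_of_pos h2]
    refine (mul_le_mul_of_nonneg_right h h2.le).trans ?_
    rw [div_lt_iff₀ hδ] at hn
    rw [div_mul_eq_mul_div, one_mul, div_le_iff₀ (by positivity)]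
    push_cast
    nlinarith
  have h5 : k * Real.log 3 - j * Real.log 2 ≠ 0 := by
    intro h6
    have hk' : (0 : ℝ) < k := by exact_mod_cast hk
    have hj' : (0 : ℝ) < j := by
      by_contra h7
      nlinarith [mul_pos hk' h3, mul_nonneg (neg_nonneg.2 (not_lt.1 h7)) h2.le]
    have hj : 0 < j := by exact_mod_cast hj'
    obtain ⟨k, rfl⟩ := Int.eq_ofNat_of_zero_le hk.le
    obtain ⟨j, rfl⟩ := Int.eq_ofNat_of_zero_le hj.le
    rw [sub_eq_zero, Int.cast_natCast, Int.cast_natCast, ← Real.log_pow, ← Real.log_pow] at h6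
    have h7 : (3 : ℝ) ^ k = 2 ^ j := Real.log_injOn_pos (by simp) (by simp) h6
    have h8 : 3 ^ k = 2 ^ j := by exact_mod_cast h7
    have h9 : 2 ∣ 3 ^ k := h8 ▸ dvd_pow_self 2 (by omega)
    exact absurd (Nat.prime_two.dvd_of_dvd_pow h9) (by norm_num)
  rcases lt_or_gt_of_ne h5 with h6 | h6
  · rw [abs_of_neg h6] at h4
    exact ⟨j, -k, by push_cast; linarith, by push_cast; linarith⟩
  · rw [abs_of_pos h6] at h4
    exact ⟨-j, k, by push_cast; linarith, by push_cast; linarith⟩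

lemma dense23 {η : ℝ} (hη : 0 < η) (a₀ : ℕ) : ∀ᶠ x : ℝ in atTop, ∃ a b : ℕ, a₀ ≤ a ∧ a₀ ≤ b ∧
    x ≤ 2 ^ a * 3 ^ b ∧ 2 ^ a * 3 ^ b ≤ (1 + η) * x := by
  have h2 : 0 < Real.log 2 := Real.log_pos (by norm_num)
  obtain ⟨u, v, h0, h1⟩ := small_step (Real.log_pos (show 1 < 1 + η by linarith))
  set θ := u * Real.log 2 + v * Real.log 3 with hθ
  set J : ℤ := ⌈Real.log 2 / θ⌉ with hJ
  set B : ℤ := a₀ + J * |v| with hB
  filter_upwards [eventually_gt_atTop 0, Real.tendsto_log_atTop.eventually_ge_atTop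
    ((a₀ + J * |u| : ℤ) * Real.log 2 + B * Real.log 3)] with x hx hx'
  set A : ℤ := ⌊(Real.log x - B * Real.log 3) / Real.log 2⌋ with hA
  have hA1 : a₀ + J * |u| ≤ A := by
    rw [hA, Int.le_floor, le_div_iff₀ h2]; linarith
  have hA2 : A * Real.log 2 ≤ Real.log x - B * Real.log 3 := by
    rw [← le_div_iff₀ h2]; exact Int.floor_le _
  have hA3 : Real.log x - B * Real.log 3 < (A + 1) * Real.log 2 := by
    rw [← div_lt_iff₀ h2]; exact Int.lt_floor_add_one _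
  set y := Real.log x - B * Real.log 3 - A * Real.log 2 with hy
  set j : ℤ := ⌈y / θ⌉ with hj
  have hj0 : 0 ≤ j := Int.ceil_nonneg (div_nonneg (by linarith) h0.le)
  have hj1 : j ≤ J := Int.ceil_mono (div_le_div_of_nonneg_right (by linarith) h0.le)
  have hj2 : y ≤ j * θ := by rw [← div_le_iff₀ h0]; exact Int.le_ceil _
  have hj3 : (j - 1) * θ < y := by
    rw [← lt_div_iff₀ h0]; linarith [Int.ceil_lt_add_one (y / θ)]
  have h3 : (a₀ : ℤ) ≤ A + j * u := by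
    nlinarith [neg_abs_le u, abs_nonneg u]
  have h4 : (a₀ : ℤ) ≤ B + j * v := by
    nlinarith [neg_abs_le v, abs_nonneg v]
  obtain ⟨a, ha⟩ := Int.eq_ofNat_of_zero_le (le_trans (Int.natCast_nonneg _) h3)
  obtain ⟨b, hb⟩ := Int.eq_ofNat_of_zero_le (le_trans (Int.natCast_nonneg _) h4)
  have h5 : Real.log (2 ^ a * 3 ^ b) = A * Real.log 2 + B * Real.log 3 + j * θ := by
    have ha' : (a : ℝ) = A + j * u := by exact_mod_cast ha.symm
    have hb' : (b : ℝ) = B + j * v := by exact_mod_cast hb.symm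
    rw [Real.log_mul (by positivity) (by positivity), Real.log_pow, Real.log_pow, ha', hb', hθ]
    ring
  refine ⟨a, b, by omega, by omega, ?_, ?_⟩
  · rw [← Real.log_le_log_iff hx (by positivity), h5]; linarith
  · rw [← Real.log_le_log_iff (by positivity) (by positivity), h5,
      Real.log_mul (by positivity) hx.ne']
    linarith

lemma AS.reduce' {V : Type} [Fintype V] [DecidableEq V] (l a : ℕ) [Fact l.Prime] {R w K : ℕ}
    {p ε η : ℝ} (hR : 1 ≤ R) (h : AS V R w p ε) (hp : 0 ≤ p) (hε : 0 ≤ ε) (hη : 0 < η)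
    (hη1 : η ≤ 1) (ha : 1 + η ≤ η * (l : ℝ) ^ a)
    (hK : (1 + η) ^ 2 * (l : ℝ) ^ a * (w + R) ≤ K + R) :
    AS V R K ((1 + η) * (p / ((l : ℝ) ^ a) ^ R)) (2 * (Real.exp (-(η ^ 2 * w)) + ε)) := by
  have ha0 : a ≠ 0 := by rintro rfl; simp at ha; linarith
  let _ : Fintype (GaloisField l a) := Fintype.ofFinite _
  have hc : (Fintype.card (GaloisField l a) : ℝ) = (l : ℝ) ^ a := by
    rw [← Nat.card_eq_fintype_card, GaloisField.card l a ha0]; push_cast; rfl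
  have h1 := h.reduce (GaloisField l a) (K := K) hR hp hε hη (by rwa [hc])
  have h2 := card_sub_one_pos (F := GaloisField l a)
  rw [hc] at h1 h2
  have h3 : (l : ℝ) ^ a / ((l : ℝ) ^ a - 1) ≤ 1 + η := by
    rw [div_le_iff₀ h2]; nlinarith
  refine h1.mono le_rfl (mul_le_mul_of_nonneg_right h3 (by positivity))
    (mul_le_mul_of_nonneg_right (by linarith) (by positivity))

lemma AS.two {V : Type} [Fintype V] [DecidableEq V] (a b : ℕ) {R w K : ℕ}
    {p ε η : ℝ} (hR : 1 ≤ R) (h : AS V R w p ε) (hp : 0 ≤ p) (hε : 0 ≤ ε) (hη : 0 < η)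
    (hη1 : η ≤ 1) (ha : 1 + η ≤ η * 2 ^ a) (hb : 1 + η ≤ η * 3 ^ b) (hw : 2 * R + 1 ≤ η * w)
    (hK : (1 + η) ^ 5 * (2 ^ a * 3 ^ b) * w ≤ K + R) :
    AS V R K ((1 + η) ^ 2 * (p / (2 ^ a * 3 ^ b) ^ R)) (6 * Real.exp (-(η ^ 2 * w)) + 4 * ε) := by
  have : Fact (Nat.Prime 3) := ⟨Nat.prime_three⟩
  set K₁ := ⌈(1 + η) ^ 2 * (2 : ℝ) ^ a * (w + R)⌉₊ with hK₁
  have h1 : (1 + η) ^ 2 * (2 : ℝ) ^ a * (w + R) ≤ K₁ := Nat.le_ceil _
  have h2 : (K₁ : ℝ) < (1 + η) ^ 2 * (2 : ℝ) ^ a * (w + R) + 1 := Nat.ceil_lt_add_one (by positivity)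
  have hR0 : (0 : ℝ) ≤ R := Nat.cast_nonneg _
  have hw0 : (0 : ℝ) ≤ w := Nat.cast_nonneg _
  have h3 : (1 : ℝ) ≤ (1 + η) ^ 2 * 2 ^ a :=
    one_le_mul_of_one_le_of_one_le (one_le_pow₀ (by linarith)) (one_le_pow₀ (by norm_num))
  have h4 : (K₁ : ℝ) + R ≤ (1 + η) ^ 3 * 2 ^ a * w := by
    nlinarith [mul_le_mul_of_nonneg_left hw (le_trans zero_le_one h3),
      mul_le_mul_of_nonneg_right h3 (show (0 : ℝ) ≤ R + 1 by linarith)]
  have h5 := h.reduce' 2 a (K := K₁) hR hp hε hη hη1 (by exact_mod_cast ha)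
    (by push_cast; linarith)
  have h6 := h5.reduce' 3 b (K := K) hR (by positivity) (by positivity) hη hη1
    (by exact_mod_cast hb) (by
      push_cast
      refine le_trans ?_ hK
      calc _ ≤ (1 + η) ^ 2 * 3 ^ b * ((1 + η) ^ 3 * 2 ^ a * w) := by gcongr
        _ = _ := by ring)
  refine h6.mono le_rfl (le_of_eq ?_) ?_
  · push_cast; rw [mul_pow]; field_simp
  · have h7 : Real.exp (-(η ^ 2 * K₁)) ≤ Real.exp (-(η ^ 2 * w)) := by
      rw [Real.exp_le_exp, neg_le_neg_iff]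
      refine mul_le_mul_of_nonneg_left ?_ (by positivity)
      nlinarith [mul_le_mul_of_nonneg_right h3 (show (0 : ℝ) ≤ w + R by linarith)]
    linarith

lemma AS_of_lt {R m : ℕ} (hm : R ≤ m) {p c : ℝ} (hc : 0 ≤ c)
    (hp : Tendsto (fun n : ℕ => (exF (m + 1) (R + 1) n : ℝ) / n.choose (m + 1)) atTop (𝓝 p))
    (h : ((m : ℝ) + 1) ^ R * (1 - p) < c) (V : Type) [Fintype V] [DecidableEq V] :
    AS V R (m + 1) (c / ((m : ℝ) + 1) ^ R) (R / (m + 1) * (2 ^ R * c)) := by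
  have h1 : ¬ c / ((m : ℝ) + 1) ^ R ≤ 1 - p := by
    rw [not_le, lt_div_iff₀ (by positivity), mul_comm]; exact h
  have h2 : ¬ ∀ (n : ℕ) (g : Multiset (Fin (n + 1)) → Prop), Hit (R + 1) m g →
      c / ((m : ℝ) + 1) ^ R ≤ Ex (m + 1) (fun M => ind (g M)) :=
    fun h3 => h1 (lower_transfer (by omega) (by omega) hp h3)
  push Not at h2
  obtain ⟨n, g, hg, h3⟩ := h2
  refine (AS_base hg h3.le).mono le_rfl le_rfl (mul_le_mul_of_nonneg_left ?_ (by positivity))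
  rw [mul_div_assoc', div_le_iff₀ (by positivity), mul_right_comm, ← mul_pow]
  refine mul_le_mul_of_nonneg_right ?_ hc
  rw [Nat.choose_symm_add]
  exact_mod_cast (Nat.choose_le_pow _ R).trans (Nat.pow_le_pow_left (by omega) R)

/-- a good level gives good systems at all large levels -/
theorem key {R : ℕ} (hR : 1 ≤ R) {c c' : ℝ} (hc : 0 ≤ c) (hcc : c < c')
    (h : ∃ᶠ m : ℕ in atTop, ∃ p : ℝ,
      Tendsto (fun n : ℕ => (exF (m + 1) (R + 1) n : ℝ) / n.choose (m + 1)) atTop (𝓝 p) ∧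
      ((m : ℝ) + 1) ^ R * (1 - p) < c) :
    ∀ᶠ k : ℕ in atTop, ∀ (V : Type) [Fintype V] [DecidableEq V], AS V R k (c' / (k : ℝ) ^ R) 0 := by
  obtain ⟨C, hC, s₀, hs⟩ := AS_bound R
  obtain ⟨η, hη, hη1, hΦ⟩ : ∃ η : ℝ, 0 < η ∧ η ≤ 1 / 2 ∧
      (1 + η) ^ 2 * (c * ((1 + η) ^ 6 / (1 - η)) ^ R) ≤ (c + c') / 2 := by
    have h1 : ContinuousAt (fun η : ℝ => (1 + η) ^ 2 * (c * ((1 + η) ^ 6 / (1 - η)) ^ R)) 0 := by
      fun_prop (disch := norm_num)
    have h2 := h1.eventually (gt_mem_nhds (show _ < (c + c') / 2 by simp; linarith))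
    have h3 : ∀ᶠ η : ℝ in 𝓝[>] 0, _ := (h2.and (gt_mem_nhds (show (0 : ℝ) < 1 / 2 by
      norm_num))).filter_mono nhdsWithin_le_nhds
    obtain ⟨η, h4, h5⟩ := (h3.and self_mem_nhdsWithin).exists
    exact ⟨η, h5, h4.2.le, h4.1.le⟩
  have hT : Tendsto (fun m : ℕ => (m : ℝ) + 1) atTop atTop :=
    tendsto_atTop_add_const_right _ _ tendsto_natCast_atTop_atTop
  have h1 : Tendsto (fun m : ℕ => (6 * Real.exp (-(η ^ 2 * ((m : ℝ) + 1)))
      + 4 * (R / ((m : ℝ) + 1) * (2 ^ R * c))) * (C * (2 / η) ^ R)) atTop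
      (𝓝 ((6 * 0 + 4 * (0 * (2 ^ R * c))) * (C * (2 / η) ^ R))) := by
    refine Tendsto.mul_const _ (Tendsto.add (Tendsto.const_mul _ ?_)
      (Tendsto.const_mul _ (Tendsto.mul_const _ (hT.const_div_atTop _))))
    exact Real.tendsto_exp_neg_atTop_nhds_zero.comp (hT.const_mul_atTop (by positivity))
  obtain ⟨m, ⟨p, hp, hlt⟩, h2, h3, h4⟩ := (h.and_eventually
    ((h1.eventually (gt_mem_nhds (show _ < (c' - c) / 2 by simp; linarith))).and
      ((eventually_ge_atTop R).and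
        ((hT.const_mul_atTop hη).eventually_ge_atTop (2 * R + 1))))).exists
  obtain ⟨a₀, ha₀⟩ := exists_nat_gt ((1 + η) / η)
  have ha₁ : ∀ (l : ℝ) (a : ℕ), 2 ≤ l → a₀ ≤ a → 1 + η ≤ η * l ^ a := by
    intro l a hl ha
    rw [div_lt_iff₀ hη] at ha₀
    have h5 : (a₀ : ℝ) ≤ 2 ^ a := by
      exact_mod_cast ha.trans (Nat.lt_two_pow_self).le
    have h6 : (2 : ℝ) ^ a ≤ l ^ a := pow_le_pow_left₀ (by norm_num) hl _
    nlinarith
  have hN : Tendsto (fun k : ℕ => (k : ℝ)) atTop atTop := tendsto_natCast_atTop_atTop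
  have hη2 : 0 < 1 - η := by linarith
  filter_upwards [(hN.const_mul_atTop (show 0 < (1 - η) / ((1 + η) ^ 6 * ((m : ℝ) + 1)) by
      positivity)).eventually (dense23 hη a₀),
    (hN.const_mul_atTop hη).eventually_ge_atTop (2 * s₀ + 2),
    eventually_ge_atTop (2 * R)] with k ⟨a, b, ha, hb, h5, h6⟩ h7 h8 V _ _
  set s := ⌊η * k⌋₊ with hs'
  have hk0 : (0 : ℝ) < k := by exact_mod_cast (show 0 < k by omega)
  have h9 : (s : ℝ) ≤ η * k := Nat.floor_le (by positivity)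
  have h10 : η * k < s + 1 := Nat.lt_floor_add_one _
  have hs0 : (0 : ℝ) ≤ s₀ := Nat.cast_nonneg _
  have h11 : s₀ ≤ s := by exact_mod_cast (show (s₀ : ℝ) ≤ s by linarith)
  have h12 : 2 * s ≤ k := by exact_mod_cast (show (2 * s : ℝ) ≤ k by nlinarith)
  obtain ⟨K, hK⟩ : ∃ K, k = K + R + s := ⟨k - R - s, by omega⟩
  have hK' : (k : ℝ) = K + R + s := by exact_mod_cast hK
  have h13 := (AS_of_lt h3 hc hp hlt V).two a b (K := K) hR (by positivity) (by positivity) hη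
    (by linarith) (ha₁ 2 a le_rfl ha) (ha₁ 3 b (by norm_num) hb) (by push_cast; exact h4) (by
      push_cast
      calc _ ≤ (1 + η) ^ 5 * ((1 + η) * ((1 - η) / ((1 + η) ^ 6 * ((m : ℝ) + 1)) * k)) * (m + 1) := by
            gcongr
        _ = (1 - η) * k := by field_simp
        _ ≤ _ := by linarith)
  have h14 := h13.repair (hs V s h11) (by positivity)
  rw [← hK, mul_zero] at h14
  refine h14.mono le_rfl ?_ le_rfl
  have h15 : c / ((m : ℝ) + 1) ^ R / (2 ^ a * 3 ^ b) ^ R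
      ≤ c * ((1 + η) ^ 6 / (1 - η)) ^ R / (k : ℝ) ^ R := by
    rw [div_div, ← mul_pow, mul_div_assoc, ← div_pow, div_eq_mul_inv c, ← inv_pow]
    refine mul_le_mul_of_nonneg_left (pow_le_pow_left₀ (by positivity) ?_ _) hc
    rw [div_div, inv_eq_one_div, div_le_div_iff₀ (by positivity) (by positivity), one_mul]
    rw [div_mul_eq_mul_div, div_le_iff₀ (by positivity)] at h5
    linarith
  have h16 : C / (s : ℝ) ^ R ≤ C * (2 / η) ^ R / (k : ℝ) ^ R := by
    have hs1 : (0 : ℝ) < s := by linarith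
    rw [mul_div_assoc, ← div_pow, div_eq_mul_inv C, ← inv_pow]
    refine mul_le_mul_of_nonneg_left (pow_le_pow_left₀ (by positivity) ?_ _) hC.le
    rw [div_div, inv_eq_one_div, div_le_div_iff₀ hs1 (by positivity)]
    linarith
  push_cast
  refine (add_le_add (mul_le_mul_of_nonneg_left h15 (by positivity))
    (mul_le_mul_of_nonneg_left h16 (by positivity))).trans ?_
  rw [← mul_div_assoc, ← mul_div_assoc, ← add_div]
  refine div_le_div_of_nonneg_right ?_ (by positivity)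
  linarith

end Pool.Agent.P.MP_7badbe_co
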