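import Pool.Agent.P.MP_7badbe_co.Lim.E
import Pool.Agent.P.MP_7badbe_co.Lim.F

set_option autoImplicit false

open Finset Filter Topology
open scoped BigOperators

namespace Pool.Agent.P.MP_7badbe_co

lemma lim_lower {R : ℕ} (hR : 2 ≤ R) {π : ℕ → ℝ} {c : ℝ}
    (hπ : ∀ m, Tendsto (fun n : ℕ => (exF (m + 1) (R + 1) n : ℝ) / n.choose (m + 1)) atTop (𝓝 (π m)))
    (hc : Tendsto (fun m : ℕ => ((m : ℝ) + 1) ^ R * (1 - π m)) atTop (𝓝 c)) :
    ((R + 1).factorial : ℝ) ≤ c := by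
  have hT : Tendsto (fun m : ℕ => (m : ℝ) + 1) atTop atTop :=
    tendsto_atTop_add_const_right _ _ tendsto_natCast_atTop_atTop
  have h1 : Tendsto (fun m : ℕ => ((R + 1).factorial : ℝ) / (1 + R / ((m : ℝ) + 1)) ^ R) atTop
      (𝓝 (((R + 1).factorial : ℝ) / (1 + 0) ^ R)) :=
    tendsto_const_nhds.div ((tendsto_const_nhds.add (hT.const_div_atTop _)).pow _) (by simp)
  rw [add_zero, one_pow, div_one] at h1
  refine le_of_tendsto_of_tendsto h1 hc ?_
  filter_upwards [eventually_ge_atTop (R * R)] with m hm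
  refine le_trans ?_ (mul_le_mul_of_nonneg_left (lower_count hR hm (hπ m)) (by positivity))
  have h0 : (0 : ℝ) < (m + 1 + R).choose (m + 1) := by
    exact_mod_cast Nat.choose_pos (by omega)
  have h2 : ((m + 1 + R).choose (m + 1) : ℝ) ≤ ((m : ℝ) + 1 + R) ^ R / R.factorial := by
    rw [Nat.choose_symm_add]
    exact_mod_cast Nat.choose_le_pow_div (α := ℝ) R (m + 1 + R)
  have h3 : 1 + R / ((m : ℝ) + 1) = ((m : ℝ) + 1 + R) / (m + 1) := by field_simp
  rw [le_div_iff₀ (by positivity)] at h2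
  rw [h3, div_pow, div_div_eq_mul_div, ← mul_div_assoc, div_le_div_iff₀ (by positivity) h0,
    Nat.factorial_succ]
  push_cast
  calc _ = (((m : ℝ) + 1) ^ R * (R + 1)) * (((m + 1 + R).choose (m + 1) : ℝ) * R.factorial) := by
        ring
    _ ≤ _ := by gcongr

lemma hash_step {R s : ℕ} (hR : 1 ≤ R) {p c L : ℝ} (hL : L = Real.log (4 * (R + 1))) (hc : 0 ≤ c)
    {m : ℕ} (hm : m + 1 = (R + 1) * (s + R + 2))
    (hp : Tendsto (fun n : ℕ => (exF (m + 1) (R + 1) n : ℝ) / n.choose (m + 1)) atTop (𝓝 p))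
    (h : ∀ (V : Type) [Fintype V] [DecidableEq V],
      AS V R (s + R + 2) (c / ((s + R + 2 : ℕ) : ℝ) ^ R) 0)
    {y : ℝ} (hy : y ≤ (R * s).choose R) (hLy : L < y) :
    ((m : ℝ) + 1) ^ R * (1 - p)
      ≤ (2 * R + 3) * (R + 1) ^ R * (((s : ℝ) + R + 2) ^ R * L / (y - L)) + c / 8 := by
  have hR1 : (1 : ℝ) ≤ R := by exact_mod_cast hR
  have hL0 : 0 < L := hL ▸ Real.log_pos (by linarith)
  set N := (R * s).choose R with hN
  set M := ⌊N / L⌋₊ with hM
  have hM1 : (M : ℝ) ≤ N / L := Nat.floor_le (by positivity)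
  have hM2 : N / L < M + 1 := Nat.lt_floor_add_one _
  have hM3 : 1 ≤ M := Nat.le_floor (by rw [le_div_iff₀ hL0]; push_cast; linarith)
  have hM4 : (1 : ℝ) ≤ M := by exact_mod_cast hM3
  have : NeZero M := ⟨by omega⟩
  have h1 : 1 - p ≤ (2 * R + 3) / M
      + 2 ^ (2 * R + 3) * (1 / (4 * (R + 1))) ^ (R + 2) * (c / ((s + R + 2 : ℕ) : ℝ) ^ R) := by
    refine upper_AS hp (fun n => ?_)
    have h2 := (AS_hash (Fin n) M (R * s + R * (R + 1)) R (x := 1 / (4 * (R + 1))) (by positivity)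
      (by rw [div_le_one (by positivity)]; linarith) ?_).repair (h (Fin n)) (by positivity)
    · rw [mul_zero] at h2
      exact h2.mono (by rw [hm]; exact le_of_eq (by ring)) le_rfl le_rfl
    · rw [show R * s + R * (R + 1) + R - (R + 2) * R = R * s from
        Nat.sub_eq_of_eq_add (by ring), ← hN]
      have h4 : (0 : ℝ) ≤ 1 - 1 / M := by
        rw [sub_nonneg, div_le_one (by linarith)]; exact hM4
      refine (pow_le_pow_left₀ h4 (Real.one_sub_le_exp_neg _) _).trans ?_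
      rw [← Real.exp_nat_mul, one_div (4 * _), ← Real.exp_log (show (0 : ℝ) < 4 * (R + 1) by
        positivity), ← hL, ← Real.exp_neg, Real.exp_le_exp, mul_neg, neg_le_neg_iff, mul_one_div,
        le_div_iff₀ (by linarith)]
      rw [le_div_iff₀ hL0] at hM1
      linarith
  have hm' : (m : ℝ) + 1 = (R + 1) * (s + R + 2) := by exact_mod_cast hm
  refine (mul_le_mul_of_nonneg_left h1 (by positivity)).trans ?_
  rw [hm', mul_pow, mul_add]
  push_cast
  refine add_le_add ?_ ?_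
  · have h2 : (1 : ℝ) / M ≤ L / (y - L) := by
      rw [div_le_div_iff₀ (by linarith) (by linarith)]
      rw [div_lt_iff₀ hL0] at hM2
      linarith
    calc _ = (2 * R + 3) * (R + 1) ^ R * (((s : ℝ) + R + 2) ^ R * (1 / M)) := by ring
      _ ≤ (2 * R + 3) * (R + 1) ^ R * (((s : ℝ) + R + 2) ^ R * (L / (y - L))) := by gcongr
      _ = _ := by ring
  · have h2 : ((R : ℝ) + 1) ^ R * ((s : ℝ) + R + 2) ^ R * (2 ^ (2 * R + 3) *
        (1 / (4 * (R + 1))) ^ (R + 2) * (c / ((s : ℝ) + R + 2) ^ R)) = c / (2 * (R + 1) ^ 2) := by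
      rw [one_div, inv_pow, mul_pow, pow_add, pow_mul, pow_add, pow_add]
      field_simp
      norm_num
      exact Or.inl (mul_comm _ _)
    rw [h2]
    refine div_le_div_of_nonneg_left hc (by norm_num) (by nlinarith)

lemma lim_upper {R : ℕ} (hR : 1 ≤ R) {π : ℕ → ℝ} {c : ℝ} (hc0 : 0 ≤ c)
    (hπ : ∀ m, Tendsto (fun n : ℕ => (exF (m + 1) (R + 1) n : ℝ) / n.choose (m + 1)) atTop (𝓝 (π m)))
    (hc : Tendsto (fun m : ℕ => ((m : ℝ) + 1) ^ R * (1 - π m)) atTop (𝓝 c))
    (hU : ∀ c' > c, ∀ᶠ k : ℕ in atTop, ∀ (V : Type) [Fintype V] [DecidableEq V],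
      AS V R k (c' / (k : ℝ) ^ R) 0) :
    c ≤ 8 * (R + 1).factorial * Real.log (4 * (R + 1)) := by
  set L := Real.log (4 * (R + 1)) with hL
  have hR1 : (1 : ℝ) ≤ R := by exact_mod_cast hR
  have hL0 : 0 < L := Real.log_pos (by linarith)
  have hF : (0 : ℝ) < R.factorial := by positivity
  have hT : Tendsto (fun s : ℕ => (s : ℝ) + R + 2) atTop atTop :=
    tendsto_atTop_add_const_right _ _
      (tendsto_atTop_add_const_right _ _ tendsto_natCast_atTop_atTop)
  have h1 : Tendsto (fun s : ℕ => (R - (R * (R + 3) - 1) / ((s : ℝ) + R + 2)) ^ R / R.factorial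
      - L / ((s : ℝ) + R + 2) ^ R) atTop (𝓝 ((R - 0) ^ R / R.factorial - 0)) :=
    (((tendsto_const_nhds.sub (hT.const_div_atTop _)).pow _).div_const _).sub
      (((tendsto_pow_atTop (by omega)).comp hT).const_div_atTop _)
  rw [sub_zero, sub_zero] at h1
  have h2 : ∀ c' > c, c ≤ (2 * R + 3) * (R + 1) ^ R * (L / (R ^ R / R.factorial)) + c' / 8 := by
    intro c' hc'
    have h3 : Tendsto (fun s : ℕ => (R + 1) * (s + R + 2) - 1) atTop atTop :=
      tendsto_atTop_mono (fun s => by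
        show s ≤ _
        exact Nat.le_sub_one_of_lt (by nlinarith)) tendsto_id
    refine le_of_tendsto_of_tendsto (hc.comp h3)
      (((tendsto_const_nhds.div h1 (by positivity)).const_mul _).add_const _) ?_
    filter_upwards [(tendsto_add_atTop_nat (R + 2)).eventually (hU c' hc'),
      h1.eventually (lt_mem_nhds (show 0 < (R : ℝ) ^ R / R.factorial by positivity)),
      eventually_ge_atTop 1] with s h4 h5 h6
    have hs0 : (0 : ℝ) < ((s : ℝ) + R + 2) ^ R := by positivity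
    have h7 : (R - (R * (R + 3) - 1) / ((s : ℝ) + R + 2)) ^ R / R.factorial
        - L / ((s : ℝ) + R + 2) ^ R
        = (((R : ℝ) * s + 1 - R) ^ R / R.factorial - L) / ((s : ℝ) + R + 2) ^ R := by
      rw [show R - (R * (R + 3) - 1) / ((s : ℝ) + R + 2) = (R * s + 1 - R) / ((s : ℝ) + R + 2) by
        field_simp; ring, div_pow]
      field_simp
    rw [h7, lt_div_iff₀ hs0, zero_mul, sub_pos] at h5
    have h8 : ((R : ℝ) * s + 1 - R) ^ R / R.factorial ≤ (R * s).choose R := by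
      have h9 := Nat.pow_le_choose (α := ℝ) R (R * s)
      rwa [Nat.cast_sub (by nlinarith), Nat.cast_add, Nat.cast_mul, Nat.cast_one] at h9
    refine (hash_step hR hL (by linarith) (Nat.sub_add_cancel (Nat.succ_le_of_lt (by positivity)))
      (hπ _) h4 h8 h5).trans (le_of_eq ?_)
    simp only [Pi.div_apply]
    rw [h7, div_div_eq_mul_div, mul_comm L]
  have h3 : c ≤ (2 * R + 3) * (R + 1) ^ R * (L / (R ^ R / R.factorial)) + c / 8 :=
    le_of_forall_pos_le_add (fun ε hε => by linarith [h2 (c + 8 * ε) (by linarith)])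
  have h4 : ((R : ℝ) + 1) ^ R ≤ 2.72 * R ^ R := by
    have h5 : (1 + 1 / (R : ℝ)) ^ R ≤ Real.exp (1 / R) ^ R :=
      pow_le_pow_left₀ (by positivity) (by linarith [Real.add_one_le_exp (1 / (R : ℝ))]) _
    rw [← Real.exp_nat_mul, mul_one_div_cancel (by positivity),
      show 1 + 1 / (R : ℝ) = (R + 1) / R by field_simp, div_pow, div_le_iff₀ (by positivity)] at h5
    exact h5.trans (mul_le_mul_of_nonneg_right (by linarith [Real.exp_one_lt_d9]) (by positivity))
  have h5 : (2 * R + 3) * ((R : ℝ) + 1) ^ R * (L / (R ^ R / R.factorial))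
      ≤ 7 * ((R + 1) * R.factorial) * L := by
    calc _ ≤ (2 * R + 3) * (2.72 * (R : ℝ) ^ R) * (L / (R ^ R / R.factorial)) := by gcongr
      _ = (2 * R + 3) * 2.72 * (R.factorial * L) := by field_simp
      _ ≤ 7 * (R + 1) * (R.factorial * L) :=
        mul_le_mul_of_nonneg_right (by linarith) (by positivity)
      _ = _ := by ring
  rw [Nat.factorial_succ]
  push_cast
  linarith

theorem limit_exists (i : ℕ) (hi : 2 ≤ i) : ∃ c : ℝ, 0 < c ∧ (3 ≤ i → (i.factorial : ℝ) ≤ c) ∧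
    c ≤ 8 * i.factorial * Real.log (4 * i) ∧ ∀ ε : ℝ, 0 < ε → ∃ k₀ : ℕ, ∀ k ≥ k₀, ∃ p : ℝ,
      Tendsto (fun n : ℕ => (exF k i n : ℝ) / n.choose k) atTop (𝓝 p) ∧
      (c - ε) / (k : ℝ) ^ (i - 1) ≤ 1 - p ∧ 1 - p ≤ (c + ε) / (k : ℝ) ^ (i - 1) := by
  obtain ⟨c₁, C₁, hc₁, k₁, h₁⟩ := fixed i (by omega)
  obtain ⟨R, rfl⟩ : ∃ R, i = R + 1 := ⟨i - 1, by omega⟩
  have hR : 1 ≤ R := by omega
  choose π hπ using fun m => exists_limit (m := m) (i := R + 1) (by omega)
  set u : ℕ → ℝ := fun m => ((m : ℝ) + 1) ^ R * (1 - π m) with hu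
  have h1 : ∀ᶠ m in atTop, c₁ ≤ u m ∧ u m ≤ C₁ := by
    filter_upwards [eventually_ge_atTop k₁] with m hm
    obtain ⟨p, hp, h2, h3⟩ := h₁ (m + 1) (by omega)
    rw [tendsto_nhds_unique hp (hπ m), Nat.add_sub_cancel] at h2 h3
    push_cast at h2 h3
    rw [div_le_iff₀' (by positivity)] at h2
    rw [le_div_iff₀' (by positivity)] at h3
    exact ⟨h2, h3⟩
  have hb : IsBoundedUnder (· ≥ ·) atTop u := ⟨c₁, by simpa using h1.mono (fun _ h => h.1)⟩
  have hb' : IsCoboundedUnder (· ≥ ·) atTop u :=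
    isCoboundedUnder_ge_of_eventually_le atTop (h1.mono (fun _ h => h.2))
  set c := liminf u atTop with hc
  have h2 : c₁ ≤ c := le_liminf_of_le hb' (h1.mono (fun _ h => h.1))
  have hU : ∀ c' > c, ∀ᶠ k : ℕ in atTop, ∀ (V : Type) [Fintype V] [DecidableEq V],
      AS V R k (c' / (k : ℝ) ^ R) 0 := fun c' hc' =>
    key hR (c := (c + c') / 2) (by linarith) (by linarith)
      ((frequently_lt_of_liminf_lt hb' (by linarith : c < (c + c') / 2)).mono
        (fun m hm => ⟨π m, hπ m, hm⟩))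
  have h3 : Tendsto u atTop (𝓝 c) := by
    refine tendsto_order.2 ⟨fun a ha => eventually_lt_of_lt_liminf ha hb, fun a ha => ?_⟩
    filter_upwards [(tendsto_add_atTop_nat 1).eventually (hU ((c + a) / 2) (by linarith))] with m hm
    have h4 := upper_AS (hπ m) (fun n => hm (Fin n))
    push_cast at h4
    rw [le_div_iff₀' (by positivity)] at h4
    exact h4.trans_lt (by linarith)
  refine ⟨c, by linarith, fun h => lim_lower (by omega) hπ h3, ?_, fun ε hε => ?_⟩
  · exact_mod_cast lim_upper hR (by linarith) hπ h3 hU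
  · obtain ⟨m₀, hm₀⟩ := eventually_atTop.1 ((h3.eventually (lt_mem_nhds (sub_lt_self c hε))).and
      (h3.eventually (gt_mem_nhds (lt_add_of_pos_right c hε))))
    refine ⟨m₀ + 1, fun k hk => ?_⟩
    obtain ⟨m, rfl⟩ : ∃ m, k = m + 1 := ⟨k - 1, by omega⟩
    obtain ⟨h4, h5⟩ := hm₀ m (by omega)
    refine ⟨π m, hπ m, ?_, ?_⟩
    · rw [Nat.add_sub_cancel]; push_cast
      rw [div_le_iff₀' (by positivity)]; exact h4.le
    · rw [Nat.add_sub_cancel]; push_cast
      rw [le_div_iff₀' (by positivity)]; exact h5.le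

end Pool.Agent.P.MP_7badbe_co
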